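import Pool.Agent.H979.GW.Walk

set_option autoImplicit false
set_option linter.unusedSectionVars false
set_option linter.unusedVariables false

open MeasureTheory ProbabilityTheory Filter Topology Set
open scoped ENNReal NNReal

/-!
# Part B: the walk on a regular tree. Statements (each `S_X` is a task), with proofs

Notation in the docstrings: `X_s = w s` under `P (stp ρ ch) []`; `E f(X_t) = Pop^t f []` (theorem
`coord`); `π v = ρ^(-|v|) (ρ + d_v)`, `d_v = (ch v).card`. Reversibility: the conductance of the edge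
between `v` (generation `k`) and its child is `ρ^(-k)`; the exact reversible measure is
`ρ^(-|v|) (ρ + d_v)` for `v ≠ []` and `d_[]` for the root (`d_[] ≥ 1` as `W [] > 0`).
-/

namespace Pool.Agent.H979.GW

open Pool.Agent.H979.QIP (P K V bm S)

/-- **GREEN** (expected number of visits to the root). Let `u_n = ∑_{t<n} Pop^t 1_[]` (nonnegative,
supported in generations `< n`).
(1) `u_n v ≤ u_n []` for all `v` in the tree (induction on `n`: for `v ≠ []`,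
`u_(n+1) v = Pop u_n v ≤ u_n [] ≤ u_(n+1) []`).
(2) `p_t = Pop^t 1_[]` satisfies `∑_v π(v) p_s(v) p_t(v) = π([]) p_(s+t)([])` (self-adjointness of
`Pop` for the exact reversible measure on finitely supported functions; all sums are over
generations `≤ s+t`). Hence `∑_v π(v) u_n(v)² ≤ n π([]) u_(2n)([]) ≤ 2 n π([]) u_n([])`, as
`u_(2n)([]) = u_n([]) + (Pop^n u_n)([]) ≤ 2 u_n([])`.
(3) energy: `∑_{w ≠ []} ρ^(-(|w|-1)) (u(w) - u(parent w))² = <u, (1 - Pop) u>_π ≤ π([]) u([])`, for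
`u = u_n`, as `(1 - Pop) u_n = 1_[] - p_n ≤ 1_[]`.
(4) flow: `θ(w) = ρ^(-|w|) W w` is conserved (`W_rec`), so for each `h ≥ 1`
`W([]) u([]) = ∑_{v ∈ Lev h} ρ^(-h) W(v) u(v) + ∑_{1 ≤ |w| ≤ h} ρ^(-|w|) W(w) (u(parent w) - u(w))`.
Average over `1 ≤ h ≤ H` and use Cauchy-Schwarz with `∑_{|w| ≤ H} ρ^(-|w|) W(w)² ≤ K H` (field `sq`):
`W([]) u([]) ≤ √(K H) * (√(energy) + (1/H) √(∑ ρ^(-|v|) u(v)²)) ≤ √(K H) (√(c u([])) + (1/H) √(2 n c u([])))`.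
With `H = ⌈√n⌉`: `u([]) ≤ C √n`. -/
def S_GREEN : Prop := ∀ (Λ : Type) [DecidableEq Λ] (ρ : ℝ) (ch : List Λ → Finset Λ)
  (W : List Λ → ℝ), 1 < ρ → (∀ v, InT ch v → 0 ≤ W v) →
  (∀ v, InT ch v → ρ * W v = ∑ c ∈ ch v, W (c :: v)) → 0 < W [] →
  (∃ C, ∀ k, ∑ v ∈ Lev ch k, (ρ⁻¹) ^ k * W v ^ 2 ≤ C) →
  ∃ C : ℝ, 0 ≤ C ∧ ∀ n : ℕ, 1 ≤ n →
    ∑ t ∈ Finset.range n, (Pop ρ ch)^[t] (fun v => if v = [] then (1 : ℝ) else 0) [] ≤ C * √n

/-- **OCC** (occupation times), given `S_GREEN`. By reversibility (self-adjointness of `Pop`)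
`π([]) (Pop^t f)([]) = ∑_v π(v) f(v) p_t(v)`, `p_t = Pop^t 1_[]` (supported in generations `≤ t`),
`p_t ≤ 1`, and `∑_{t<n} p_t(v) ≤ ∑_{t<n} p_t([]) ≤ C √n`. -/
def S_OCC : Prop := ∀ (Λ : Type) [DecidableEq Λ] (ρ : ℝ) (ch : List Λ → Finset Λ)
  (W : List Λ → ℝ) (cL : ℕ → ℝ) (σ2 η : ℝ), Reg ρ ch W cL σ2 η →
  ∃ C : ℝ, 0 ≤ C ∧ ∀ f : List Λ → ℝ, (∀ v, 0 ≤ f v) →
    (∀ n : ℕ, 1 ≤ n → ∑ t ∈ Finset.range n, (Pop ρ ch)^[t] f [] ≤ C * √n *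
      ∑ k ∈ Finset.range n, ∑ v ∈ Lev ch k, (ρ⁻¹) ^ k * (ρ + (ch v).card) * f v) ∧
    ∀ t : ℕ, (Pop ρ ch)^[t] f [] ≤
      ∑ k ∈ Finset.range (t + 1), ∑ v ∈ Lev ch k, (ρ⁻¹) ^ k * (ρ + (ch v).card) * f v

/-- **RV2** (reversible chains, forward-backward martingale). Extend `QIP.tsum_lintegral_dep` and
`QIP.reversal` (file `QIP/Rev.lean`) to the weight `π`:
`∑' x, π x * ∫⁻ F (rev n w) ∂(P q x) = ∑' x, π x * ∫⁻ F ∂(P q x)` for `Dep n F`. With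
`R x y = Φ y - Φ x`, `D = bm q R`, `M = S (cen q R) n`, `QIP.decomp` (file `QIP/LZ.lean`) with `k = N = n`
gives `2 (Φ(w n) - Φ(w 0)) = M(w) - M(rev w) + D(w 0) - D(w n)`, and
`∑_{s<n} D(w s) = Φ(w n) - Φ(w 0) - M(w)`, so `∑_{s<n} D(w s) = -½ M(w) - ½ M(rev w) + ½ (D(w 0) - D(w n))`.
The `π` integrals of the squares of the four terms are at most `n E, n E, E, E` up to constants,
`E = ∑' π V`, by `QIP.second_moment`, stationarity of `π` and `QIP.sq_bm_le`. Finally the term of `x₀`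
is at most the sum. -/
def S_RV2 : Prop := ∀ (X : Type) [Countable X] [MeasurableSpace X] [MeasurableSingletonClass X]
  (q : X → Measure X) [∀ x, IsProbabilityMeasure (q x)] (π : X → ℝ≥0∞), (∀ x, π x ≠ ∞) →
  (∀ x y, π x * q x {y} = π y * q y {x}) → ∀ Φ : X → ℝ,
  (∀ x, V q (fun x y => Φ y - Φ x) x ≠ ∞) → ∀ (n : ℕ) (x₀ : X), 1 ≤ n →
    π x₀ * ∫⁻ w, ENNReal.ofReal
      ((∑ s ∈ Finset.range n, bm q (fun x y => Φ y - Φ x) (w s)) ^ 2) ∂(P q x₀) ≤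
      16 * n * ∑' x, π x * V q (fun x y => Φ y - Φ x) x

/-- **QV** (averages along the walk), given `S_RV2`, `S_OCC`. Take `n`, `H = ⌈A √n⌉₊`, `Γ` from `Pois`
for `H`, `Φ v = ρ⁻¹ * Sf Γ v`. For `1 ≤ |v| ≤ H`, `Pop Φ v - Φ v = -(g v - c)`; for `|v| > H` it is `0`;
at the root it is `b = ρ⁻¹ (∑_c Γ [c]) / d_[]`, `|b| ≤ ρ⁻¹ (∑_c F [c]) / d_[]`. RV2 with the exact
reversible measure (`0` outside the tree): `∑ π V = 2 ∑_{w ≠ []} ρ^(-(|w|-1)) (ρ⁻¹ Γ w)² ≤ 2 C (H + 1)`. So on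
the event that `|X_s| ≤ A √n` for all `s ≤ n`, `∑_{s<n} (g(X_s) - c)` is the sum of a term of second
moment `≤ K n (H+1)` and of `(|b| + |g [] - c|) * #{s < n : X_s = []}`, of mean `≤ K √n` (OCC for
`f = 1_[]`, or S_GREEN). Chebyshev and Markov. -/
def S_QV : Prop := ∀ (Λ : Type) [DecidableEq Λ] [Countable Λ] (ρ : ℝ) [Fact (1 < ρ)]
  (ch : List Λ → Finset Λ) (W : List Λ → ℝ) (cL : ℕ → ℝ) (σ2 η : ℝ), Reg ρ ch W cL σ2 η →
  ∀ (g : List Λ → ℝ) (c : ℝ), Pois ρ ch g c → ∀ A δ : ℝ, 0 < A → 0 < δ →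
    Tendsto (fun n : ℕ => P (stp ρ ch) [] {w | (∀ s ≤ n, ((w s).length : ℝ) ≤ A * √n) ∧
      δ * n < |∑ s ∈ Finset.range n, g (w s) - c * n|}) atTop (𝓝 0)

/-- **REM**, given `S_OCC`. `VR L v ≤ (∑_c W_c² 1{W_c > L} + ρ W_v² 1{W_v > L}) / (ρ + d_v)` (up to the
constant at the root), so by OCC (restricted to `|v| ≤ A √n`) the mean of
`∑_{s<n} VR L (X_s) 1{|X_s| ≤ A √n}` is at most
`C √n ∑_{k ≤ A√n + 1} K ∑_{v ∈ Lev k} ρ^(-k) W_v² 1{W_v > L} ≤ C √n (K k₀ + ε (A √n + 2))` by `ui` and `sq`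
(for `L ≥ M`). Markov. -/
def S_REM : Prop := ∀ (Λ : Type) [DecidableEq Λ] [Countable Λ] (ρ : ℝ) [Fact (1 < ρ)]
  (ch : List Λ → Finset Λ) (W : List Λ → ℝ) (cL : ℕ → ℝ) (σ2 η : ℝ), Reg ρ ch W cL σ2 η →
  ∀ A δ η' : ℝ, 0 < A → 0 < δ → 0 < η' → ∃ L₀ : ℕ, ∀ L : ℕ, L₀ ≤ L → ∀ᶠ n : ℕ in atTop,
    P (stp ρ ch) [] {w | (∀ s ≤ n, ((w s).length : ℝ) ≤ A * √n) ∧
      δ * n < ∑ s ∈ Finset.range n, VR ρ ch W L (w s)} ≤ ENNReal.ofReal η'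

/-- **UPB**, given `S_OCC`. The mean of `#{s < n : |X_s| ≤ A √n, ε √n < S(X_s) - η |X_s|}` is at most
`C √n ∑_{k ≤ A √n} ∑_{v ∈ Lev k} π(v) max(0, S_v - η k) / (ε √n)`, and by `upp` the inner sum is `o(k)`
(and finite for each `k`), so this is `o(n)`. Markov. -/
def S_UPB : Prop := ∀ (Λ : Type) [DecidableEq Λ] [Countable Λ] (ρ : ℝ) [Fact (1 < ρ)]
  (ch : List Λ → Finset Λ) (W : List Λ → ℝ) (cL : ℕ → ℝ) (σ2 η : ℝ), Reg ρ ch W cL σ2 η →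
  ∀ A δ ε : ℝ, 0 < A → 0 < δ → 0 < ε →
    Tendsto (fun n : ℕ => P (stp ρ ch) [] {w | (∀ s ≤ n, ((w s).length : ℝ) ≤ A * √n) ∧
      δ * n < (((Finset.range n).filter
        (fun s => ε * √n < Sf W (w s) - η * (w s).length)).card : ℝ)}) atTop (𝓝 0)

/-- **LOV**, given `S_OCC` (second item). The probability that a vertex `v` with `|v| ≤ A √n` and
`Bad ρ W η ε (ε √n) v` is visited before time `n` is at most
`∑_{s ≤ n} E f(X_s) ≤ (n+1) ∑_{k ≤ A √n} ∑_{Lev k} π(v) 1{Bad}`; with `H = ⌊√n⌋` (`n ≤ 4 H²`,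
`A √n ≤ A' H`, `ε H ≤ ε √n` so `Bad (ε √n)` implies `Bad (ε H)`) it tends to `0` by `low`. -/
def S_LOV : Prop := ∀ (Λ : Type) [DecidableEq Λ] [Countable Λ] (ρ : ℝ) [Fact (1 < ρ)]
  (ch : List Λ → Finset Λ) (W : List Λ → ℝ) (cL : ℕ → ℝ) (σ2 η : ℝ), Reg ρ ch W cL σ2 η →
  ∀ A ε : ℝ, 0 < A → 0 < ε →
    Tendsto (fun n : ℕ => P (stp ρ ch) [] {w | ∃ s ≤ n, ((w s).length : ℝ) ≤ A * √n ∧
      Bad ρ W η ε (ε * √n) (w s)}) atTop (𝓝 0)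

/-- **INT**: the walk stays in the tree, starts at the root and makes steps between neighbours. -/
def S_INT : Prop := ∀ (Λ : Type) [DecidableEq Λ] [Countable Λ] (ρ : ℝ) [Fact (1 < ρ)]
  (ch : List Λ → Finset Λ), (ch []).card ≠ 0 →
  ∀ᵐ w ∂(P (stp ρ ch) []), w 0 = [] ∧ ∀ s, InT ch (w s) ∧
    ((∃ b, b ∈ ch (w s) ∧ w (s + 1) = b :: w s) ∨ (∃ b, w s = b :: w (s + 1)))

/-- **LUMP**: the first coordinate of the signed walk is the walk. (Both sides are determined by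
the cylinder probabilities; or induct with `QIP.lintegral_P` for functions `Dep N`.) -/
def S_LUMP : Prop := ∀ (Λ : Type) [DecidableEq Λ] [Countable Λ] (ρ : ℝ) [Fact (1 < ρ)]
  (ch : List Λ → Finset Λ) (v : List Λ) (s : Bool),
  (P (sgc ρ ch) (v, s)).map (fun w (k : ℕ) => (w k).1) = P (stp ρ ch) v

/-- **SGN**: one step computations for the signed walk (increments `xi ch W`), using harmonicity
`ρ W v = ∑_c W (c :: v)` for `v ≠ []` and the symmetry of the sign at the root. -/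
def S_SGN : Prop := ∀ (Λ : Type) [DecidableEq Λ] [Countable Λ] (ρ : ℝ) [Fact (1 < ρ)]
  (ch : List Λ → Finset Λ) (W : List Λ → ℝ), (∀ v, InT ch v → 0 ≤ W v) →
  (∀ v, InT ch v → ρ * W v = ∑ c ∈ ch v, W (c :: v)) → 0 < W [] →
  (∀ x, V (sgc ρ ch) (xi ch W) x ≠ ∞) ∧ (∀ x, bm (sgc ρ ch) (xi ch W) x = 0) ∧
  (∀ v s, InT ch v → ∀ L : ℕ,
    ∫ y, (tru L (xi ch W (v, s) y) - ∫ z, tru L (xi ch W (v, s) z) ∂(sgc ρ ch (v, s))) ^ 2
      ∂(sgc ρ ch (v, s)) = VL ρ ch W L v ∧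
    ∫ y, (xi ch W (v, s) y - tru L (xi ch W (v, s) y)) ^ 2 ∂(sgc ρ ch (v, s)) = VR ρ ch W L v) ∧
  (∀ v s, InT ch v → V (sgc ρ ch) (xi ch W) (v, s) = ENNReal.ofReal (VR ρ ch W 0 v))

/-- **HEI** (maximum of the height), given `S_OCC`, `S_LOV`, `S_LUMP`, `S_SGN`, `S_INT`. Let
`H = ⌊A √n⌋₊ + 1` and let `ξ x y = if x.1.length < H then xi ch W x y else 0` for the signed walk; this has
mean zero steps. `QIP.lenglart` with the budget `v = A^(3/2) n`: the probability that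
`|S ξ k w| > r` for some `k ≤ n` is at most `v / r² + P(∑_{s<n} V(w s) > v)`, and by OCC
`E ∑_{s<n} V(X_s) 1{|X_s| < H} ≤ C √n ∑_{k<H} ∑_{Lev k} π(v) VR 0 v ≤ C K √n H` (`sq`; `tru 0 = 0`), so the second
term is `≤ 2 C K A n / v`. If the walk exceeds `A √n` before `n` then at the hitting time `τ` of
generation `H`, `S ξ τ w` is the signed `S`, and off the event of LOV (with `2A`, `ε = (ρ-1)η/2`, `i = H`,
the ancestor is the root) `S(X_τ) ≥ (((ρ-1) η / 2) H - ρ W []) / (ρ - 1) ≥ η H / 4 =: r` for large `n`.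
Total: `16 A^(3/2) n / (η² A² n) + 2 C K A^(-1/2) + o(1)`; choose `A` large. -/
def S_HEI : Prop := ∀ (Λ : Type) [DecidableEq Λ] [Countable Λ] (ρ : ℝ) [Fact (1 < ρ)]
  (ch : List Λ → Finset Λ) (W : List Λ → ℝ) (cL : ℕ → ℝ) (σ2 η : ℝ), Reg ρ ch W cL σ2 η →
  ∀ η' : ℝ, 0 < η' → ∃ A : ℝ, 0 < A ∧ ∀ᶠ n : ℕ in atTop,
    P (stp ρ ch) [] {w | ∃ s ≤ n, A * √n < ((w s).length : ℝ)} ≤ ENNReal.ofReal η'

/-- **DET** (deterministic). If `u = w r` has the minimal length among `w r'`, `r'` between `s` and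
`t`, then `u` is an ancestor of all of them (`u = (w r').drop (|w r'| - |u|)`, induction along the path).
`W u ≤ ε x` for every visited `u ≠ []` (at the first visit the walk comes from the parent, and
`d ≥ 1`), and `ρ W [] ≤ ε x`. Upper bound: let `t` be a good time with `|s - t| ≤ d`, `u` as above;
`S(w t) - S(u) ≤ ε x`, so by `¬ Bad` at `w t` for `i = |w t| - |u|`:
either `i < ε x` or `((ρ-1)η - ε) i ≤ (ρ-1) ε x + ρ ε x`, so `|w t| ≤ |u| + K ε x ≤ |w s| + K ε x` and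
`S(w s) ≤ S(w t) + ε x ≤ η |w t| + 2 ε x`. Lower bound: `¬ Bad` at `w s` with `i = |w s|`, `u = []`, or
`|w s| < ε x` and `S ≥ 0`. -/
def S_DET : Prop := ∀ (ρ η : ℝ), 1 < ρ → 0 < η → ∃ K : ℝ, 0 ≤ K ∧
  ∀ (Λ : Type) [DecidableEq Λ] (ch : List Λ → Finset Λ) (W : List Λ → ℝ),
  (∀ v, InT ch v → 0 ≤ W v) → ∀ (w : ℕ → List Λ) (n d : ℕ) (x A ε : ℝ), 0 < ε →
  ε ≤ (ρ - 1) * η / 2 → 0 ≤ x → 0 ≤ A → w 0 = [] → (∀ s, InT ch (w s)) →
  (∀ s, (∃ b, w (s + 1) = b :: w s) ∨ (∃ b, w s = b :: w (s + 1))) →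
  1 ≤ d → d ≤ n → ρ * W [] ≤ ε * x →
  (∀ s ≤ n, ((w s).length : ℝ) ≤ A * x) →
  (∀ s ≤ n, ∀ t ≤ n, s ≤ t → t ≤ s + d → |Sf W (w s) - Sf W (w t)| ≤ ε * x) →
  (∀ s ≤ n, ¬ Bad ρ W η ε (ε * x) (w s)) →
  (∀ s, s + d ≤ n → ∃ t, s ≤ t ∧ t ≤ s + d ∧ Sf W (w t) - η * (w t).length ≤ ε * x) →
  ∀ s ≤ n, |Sf W (w s) - η * (w s).length| ≤ K * (1 + A) * (ε * x)

end Pool.Agent.H979.GW
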