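import Pool.Agent.H979.GW.Defs

set_option autoImplicit false
set_option linter.unusedSectionVars false
set_option linter.unusedVariables false

open MeasureTheory ProbabilityTheory Filter Topology Set
open scoped ENNReal NNReal

/-!
# Part A: the random tree. Statements (each `S_X` is a task), with proofs in the docstrings

Notation in the docstrings: `E_a` is the integral with respect to `law q a`; `A = mA q`;
`m(ψ) = ∑ b, m b * ψ b`; `L_j f = ρ^(-j) T^j f` with `T = TT`.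
-/

namespace Pool.Agent.H979.GW

variable {Q : Type} [Fintype Q] [DecidableEq Q]

/-- **PF** (Perron-Frobenius, elementary). Doob transform: `P(a,b) = A a b * e b / (ρ * e a)` is a
stochastic matrix with `P^n > 0` entrywise (conjugate `A^n` with the diagonal matrix `e`), so with
`δ = min P^n a b`, the oscillation `max - min` of `P^n g` is at most `(1 - δ) *` the oscillation of
`g` (and `P` does not increase it). Hence `P^j g` converges to a constant `ν(g)` at a geometric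
rate `|P^j g a - ν(g)| ≤ C r^j max |g|`. The map `ν` is linear, positive, `ν(1) = 1`,
`ν(P g) = ν(g)`. Put `m b = ν(1_b) / e b`; `ρ^(-j) (A^j ψ) a = e a * (P^j (ψ/e)) a`, and
`m b > 0` since `ν(1_b) = ν(P^n 1_b) ≥ δ`. (Alternatively: left eigenvector by any other way.) -/
def S_PF (Q : Type) [Fintype Q] [DecidableEq Q] : Prop :=
  ∀ (A : Matrix Q Q ℝ) (ρ : ℝ) (e : Q → ℝ), (∀ a b, 0 ≤ A a b) → (∃ n, ∀ a b, 0 < (A ^ n) a b) →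
    0 < ρ → (∀ a, 0 < e a) → (∀ a, ∑ b, A a b * e b = ρ * e a) → ∃ m C r, PF A ρ e m C r

/-- **SH**. The subtree above `v` (whether or not `v` belongs to the tree) has the law of type
`ty a v`. Proof: uniqueness of the infinite product measure on boxes (`Measure.eq_infinitePi`): the
map `u ↦ u ++ v` is injective and `ty a (u ++ v) = ty (ty a v) u`. -/
def S_SH (q : Q → Measure (Q → ℕ)) : Prop :=
  ∀ (a : Q) (v : Vx Q), Measurable (sh (Q := Q) v) ∧ (law q a).map (sh v) = law q (ty a v)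

/-- **DEC** (branching decomposition). The offspring of the root and the subtrees above the potential
children `c` are independent. Proof: every word is `[]` or `u ++ [c]` in a unique way; the measure
on the right, pulled back to `Env Q` (`ω [] = x`, `ω (u ++ [c]) = y c u`), has the right values on
boxes; uniqueness of the infinite product measure (`Measure.eq_infinitePi`), or the Mathlib lemmas
on reindexing/currying of `Measure.infinitePi`. -/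
def S_DEC (q : Q → Measure (Q → ℕ)) : Prop :=
  ∀ a, (law q a).map (fun ω => (ω [], fun c : Q × ℕ => sh [c] ω)) =
    (q a).prod (Measure.infinitePi fun c : Q × ℕ => law q c.1)

/-- **M1** (first moments), given `S_SH`, `S_DEC` and the first moments
`∀ a b, Integrable (fun x => (x b : ℝ)) (q a)`. First the version with `ℝ≥0∞`, then integrals. -/
def S_M1 (q : Q → Measure (Q → ℕ)) : Prop :=
  (∀ f : Q → Env Q → ℝ≥0∞, (∀ b, Measurable (f b)) → ∀ a,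
    ∫⁻ ω, ∑ c ∈ chd (ω []), f c.1 (sh [c] ω) ∂(law q a) =
      ∑ b, ENNReal.ofReal (mA q a b) * ∫⁻ ω, f b ω ∂(law q b)) ∧
  ∀ f : Q → Env Q → ℝ, (∀ b, Integrable (f b) (law q b)) → ∀ a,
    Integrable (TT f a) (law q a) ∧
      ∫ ω, TT f a ω ∂(law q a) = ∑ b, mA q a b * ∫ ω, f b ω ∂(law q b)

/-- **M2** (second moments), given `S_SH`, `S_DEC`, and the second moments `mom` of `Hyp`: given the
offspring `x` of the root, `TT f` is a sum of independent variables. -/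
def S_M2 (q : Q → Measure (Q → ℕ)) : Prop :=
  ∀ f : Q → Env Q → ℝ, (∀ b, MemLp (f b) 2 (law q b)) → ∀ a,
    MemLp (TT f a) 2 (law q a) ∧
      ∫ ω, TT f a ω ^ 2 ∂(law q a) =
        ∑ b, mA q a b * (∫ ω, f b ω ^ 2 ∂(law q b) - (∫ ω, f b ω ∂(law q b)) ^ 2) +
        ∫ x, (∑ b, (x b : ℝ) * ∫ ω, f b ω ∂(law q b)) ^ 2 ∂(q a)

/-- **MZ**, given `S_M1`, `S_M2`: iteration for functions of mean zero. -/
def S_MZ (q : Q → Measure (Q → ℕ)) : Prop :=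
  ∀ f : Q → Env Q → ℝ, (∀ b, MemLp (f b) 2 (law q b)) → (∀ b, ∫ ω, f b ω ∂(law q b) = 0) →
    ∀ (k : ℕ) (a : Q), MemLp (TT^[k] f a) 2 (law q a) ∧ ∫ ω, TT^[k] f a ω ∂(law q a) = 0 ∧
      ∫ ω, TT^[k] f a ω ^ 2 ∂(law q a) = ∑ b, ((mA q) ^ k) a b * ∫ ω, f b ω ^ 2 ∂(law q b)

/-- **KEY**, given `Hyp q ρ e m C r`, `S_M1`, `S_M2`. Let `L_j = ρ^(-j) T^j f`, `ψ_j b = E_b L_j`,
`v_j a = E_a L_j^2`. By M1 `ψ_j = (A/ρ)^j ψ_0` and `m(ψ_0) = 0`, so `|ψ_j| ≤ C M r^j` by `PF.conv`.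
By M2 (note `T^(j+1) f = T (T^j f)`),
`v_(j+1) ≤ ρ^(-2) A v_j + K₁ max |ψ_j|^2`. With the eigenvector `e`: if
`v_j ≤ K e s^j` with `s = max(ρ^(-1/2), r)` or so (any `s<1` with `s ≥ ρ^(-1) + small`,
`s ≥ r^2 + small`), then `v_(j+1) ≤ (K ρ^(-1) s^j + K₂ r^(2j)) e ≤ K s^(j+1) e` for `K` large. -/
def S_KEY (q : Q → Measure (Q → ℕ)) (ρ : ℝ) (m : Q → ℝ) : Prop :=
  ∀ f : Q → Env Q → ℝ, (∀ b, MemLp (f b) 2 (law q b)) →
    ∑ b, m b * ∫ ω, f b ω ∂(law q b) = 0 → ∃ K s : ℝ, 0 ≤ K ∧ 0 ≤ s ∧ s < 1 ∧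
      ∀ (j : ℕ) (a : Q), MemLp (TT^[j] f a) 2 (law q a) ∧
        ∫ ω, ((ρ⁻¹) ^ j * TT^[j] f a ω) ^ 2 ∂(law q a) ≤ K * s ^ j

/-- **W** (the martingale limit), given `Hyp`, `S_SH`, `S_M1`, `S_M2`, `S_KEY`.
`Wk (k+1) - Wk k = ρ^(-k) T^k φ` with `φ a ω = ρ⁻¹ ∑_{c child} e c.1 - e a`, which is in `L²` with
mean zero, so by KEY the increments are summable in `L²` (hence a.e.): `Wk k → WW` a.e. and in `L²`
at a geometric rate. `E_a Wk k = e a`. The recursion: `Wk (k+1) a ω = ρ⁻¹ T (Wk k)`, pass to the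
limit (the convergence holds at `sh [c] ω` for all `c` a.e. by SH). Last item (`W2`): apply KEY to
`φ - m(φ) e` and use the rate for `Wk`: `|ρ^(-i)T^i φ - m(φ) WW| ≤ |L_i(φ - m(φ)e)| + |m(φ)| |Wk i - WW|`. -/
def S_W (q : Q → Measure (Q → ℕ)) (ρ : ℝ) (e m : Q → ℝ) : Prop :=
  (∀ a, Measurable (WW ρ e a)) ∧ (∀ a ω, 0 ≤ WW ρ e a ω) ∧ (∀ a, MemLp (WW ρ e a) 2 (law q a)) ∧
  (∀ a, ∫ ω, WW ρ e a ω ∂(law q a) = e a) ∧
  (∀ a, ∀ᵐ ω ∂(law q a), Tendsto (fun k => Wk ρ e k a ω) atTop (𝓝 (WW ρ e a ω))) ∧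
  (∀ a, ∀ᵐ ω ∂(law q a), ρ * WW ρ e a ω = ∑ c ∈ chd (ω []), WW ρ e c.1 (sh [c] ω)) ∧
  ∀ f : Q → Env Q → ℝ, (∀ b, MemLp (f b) 2 (law q b)) → ∃ K s : ℝ, 0 ≤ K ∧ 0 ≤ s ∧ s < 1 ∧
    ∀ (i : ℕ) (a : Q),
      MemLp (fun ω => (ρ⁻¹) ^ i * TT^[i] f a ω -
        (∑ b, m b * ∫ ω, f b ω ∂(law q b)) * WW ρ e a ω) 2 (law q a) ∧
      ∫ ω, ((ρ⁻¹) ^ i * TT^[i] f a ω -
        (∑ b, m b * ∫ ω, f b ω ∂(law q b)) * WW ρ e a ω) ^ 2 ∂(law q a) ≤ K * s ^ i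

/-- **LLN** (strong law along the generations, `L¹`), given `Hyp`, `S_M1`, `S_M2`, `S_MZ`, `S_W`.
Reduce to `f ≥ 0`, measurable. Let `f_k = f 1{f ≤ ρ^k}`, `ψ_k b = E_b f_k`, `g_k = f_k - ψ_k`.
(1) `P_a(∃ v ∈ Lev k, f(v) > ρ^k) ≤ E_a T^k 1{f > ρ^k} = (A^k P(f > ρ^k)) a ≤ K ρ^k max_b P_b(f > ρ^k)`
is summable, so a.e. for all large `k`, `T^k f = T^k f_k` (use `T^k (f 1{f>ρ^k}) = 0` iff ..., or
apply `ae_tendsto_zero` to the integer valued `T^k 1{f > ρ^k}`, which then is `0` for large `k`).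
(2) `E_a (ρ^(-k) T^k g_k)^2 = ρ^(-2k) (A^k E g_k^2) a ≤ K ρ^(-k) max_b E_b [f^2 1{f ≤ ρ^k}]` by MZ, and
`∑_k ρ^(-k) E[f^2 1{f ≤ ρ^k}] = E[f^2 ∑_{k : ρ^k ≥ f} ρ^(-k)] ≤ K E f < ∞`; so
`ρ^(-k) T^k g_k → 0` a.e.
(3) `ρ^(-k) T^k ψ_k`: `ψ_k → ψ` and `ρ^(-k) T^k ψ → m(ψ) WW` a.e. by the last item of `S_W`
(constants in `L²`, summable rate), and `ρ^(-k) T^k |ψ_k - ψ| ≤ max|ψ_k - ψ| ρ^(-k) T^k 1 → 0`. -/
def S_LLN (q : Q → Measure (Q → ℕ)) (ρ : ℝ) (e m : Q → ℝ) : Prop :=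
  ∀ f : Q → Env Q → ℝ, (∀ b, Integrable (f b) (law q b)) → ∀ a, ∀ᵐ ω ∂(law q a),
    Tendsto (fun k : ℕ => (ρ⁻¹) ^ k * TT^[k] f a ω) atTop
      (𝓝 ((∑ b, m b * ∫ ω, f b ω ∂(law q b)) * WW ρ e a ω))

/-- **LEV** (deterministic): the iterates of `TT` are the sums over the generations; and sums over
generation `j + k` split. Proof: inductions, with `sh u (sh v ω) = sh (u ++ v) ω`,
`ty (ty a v) u = ty a (u ++ v)`; a vertex of generation `k+1` is `u ++ [c]` with `c` a child of the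
root and `u` in generation `k` of the subtree `sh [c] ω`. -/
def S_LEV (Q : Type) [Fintype Q] [DecidableEq Q] : Prop :=
  (∀ (f : Q → Env Q → ℝ) (k : ℕ) (a : Q) (ω : Env Q),
    TT^[k] f a ω = ∑ v ∈ Lev (cht ω) k, f (ty a v) (sh v ω)) ∧
  ∀ (ω : Env Q) (j k : ℕ) (F : Vx Q → ℝ),
    ∑ v ∈ Lev (cht ω) (j + k), F v = ∑ u ∈ Lev (cht ω) j, ∑ w ∈ Lev (cht (sh u ω)) k, F (w ++ u)

/-- **POS** (`W > 0` on survival), given `S_SH`, `S_W`, `S_LEV` (and `Hyp` for `e > 0`, `ρ > 1`).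
`p_b = P_b(WW = 0) < 1` since `E_b WW = e b > 0`; let `p = max p_b < 1`. Let `S = {all generations
nonempty}`, `N = {WW = 0}`. For `k` and `E` in the sigma-algebra of the coordinates `ω u`,
`|u| < k`: on `{Lev k = F}`, `F ≠ ∅`, choose `v_F ∈ F`; a.e. `WW a ω = 0` implies
`WW (ty a v_F) (sh v_F ω) = 0` (iterate the recursion at all vertices), and `sh v_F ω` is
independent of the coordinates `|u| < k`; so `P(E ∩ N ∩ {Lev k ≠ ∅}) ≤ p P(E ∩ {Lev k ≠ ∅})`.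
Let `k → ∞`: `P(E ∩ N ∩ S) ≤ p P(E ∩ S)` for every cylinder event `E`, hence (approximation of
`N ∩ S` by cylinder events, or Lévy's upward theorem `MeasureTheory.tendsto_ae_condExp`, or a
comparison of the two finite measures) for `E = N ∩ S`, so `P(N ∩ S) = 0`. -/
def S_POS (q : Q → Measure (Q → ℕ)) (ρ : ℝ) (e : Q → ℝ) : Prop :=
  ∀ a, ∀ᵐ ω ∂(law q a), (∀ n, (Lev (cht ω) n).Nonempty) → 0 < WW ρ e a ω

/-- the siblings' sum `B_c` of the child `c` of the root -/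
noncomputable def Bc (ρ : ℝ) (e : Q → ℝ) (ω : Env Q) (c : Q × ℕ) : ℝ :=
  ∑ d ∈ (chd (ω [])).erase c, WW ρ e d.1 (sh [d] ω)

/-- the tilted mean matrix -/
noncomputable def Kth (q : Q → Measure (Q → ℕ)) (ρ : ℝ) (e : Q → ℝ) (θ : ℝ) : Matrix Q Q ℝ :=
  fun a b => ∫ ω, ∑ c ∈ chd (ω []), (if c.1 = b then Real.exp (-(θ * Bc ρ e ω c)) else 0) ∂(law q a)

/-- the tilted operator -/
noncomputable def Tth (ρ : ℝ) (e : Q → ℝ) (θ : ℝ) (f : Q → Env Q → ℝ≥0∞) (a : Q) (ω : Env Q) :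
    ℝ≥0∞ :=
  ∑ c ∈ chd (ω []), ENNReal.ofReal (Real.exp (-(θ * Bc ρ e ω c))) * f c.1 (sh [c] ω)

/-- **M3** (tilted first moments), given `S_SH`, `S_DEC`, `∀ a, Measurable (WW ρ e a)`, first
moments: for fixed `c`, `sh [c] ω` is independent of `(ω [], (sh [d] ω)_{d ≠ c})`, of which
`1{c child} exp(-θ B_c)` is a function. -/
def S_M3 (q : Q → Measure (Q → ℕ)) (ρ : ℝ) (e : Q → ℝ) : Prop :=
  ∀ (θ : ℝ), 0 ≤ θ → ∀ f : Q → Env Q → ℝ≥0∞, (∀ b, Measurable (f b)) →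
    (∀ a, Measurable (Tth ρ e θ f a)) ∧ ∀ a,
    ∫⁻ ω, Tth ρ e θ f a ω ∂(law q a) =
      ∑ b, ENNReal.ofReal (Kth q ρ e θ a b) * ∫⁻ ω, f b ω ∂(law q b)

/-- **PERT** (perturbation of the eigenvalue). Let `g₁ a = ρ⁻¹ ∑ b, D a b e b`, `β' = m(g₁)` and
`χ = -∑_j (A/ρ)^j (g₁ - β' e)` (geometric convergence by `PF.conv`, since `m(g₁ - β' e) = 0`), so
`ρ⁻¹ A χ - χ = g₁ - β' e`. For small `θ`, `g = e + θ χ` satisfies `e/2 ≤ g ≤ 2e` and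
`ρ⁻¹ (A - θ D) g = g + θ (ρ⁻¹ A χ - χ - g₁) - θ² ρ⁻¹ D χ = g - θ β' e - θ² ρ⁻¹ D χ ≤ (1 - θ (β' - δ)) g`. -/
def S_PERT (Q : Type) [Fintype Q] [DecidableEq Q] : Prop :=
  ∀ (A D : Matrix Q Q ℝ) (ρ : ℝ) (e m : Q → ℝ) (C r : ℝ), PF A ρ e m C r → 0 < ρ →
    (∀ a b, 0 ≤ A a b) → (∀ a b, 0 ≤ D a b) → ∀ δ : ℝ, 0 < δ → ∃ θ₀ : ℝ, 0 < θ₀ ∧
      ∀ θ : ℝ, 0 < θ → θ ≤ θ₀ → ∃ g : Q → ℝ, (∀ a, e a / 2 ≤ g a) ∧ (∀ a, g a ≤ 2 * e a) ∧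
        ∀ a, ∑ b, (A a b - θ * D a b) * g b ≤
          ρ * (1 - θ * (ρ⁻¹ * (∑ a, m a * ∑ b, D a b * e b) - δ)) * g a

/-- the speed `η = m(E W^2)` -/
noncomputable def etaA (q : Q → Measure (Q → ℕ)) (ρ : ℝ) (e m : Q → ℝ) : ℝ :=
  ∑ b, m b * ∫ ω, WW ρ e b ω ^ 2 ∂(law q b)

/-- **BETA**, given `Hyp`, `S_SH`, `S_M1`, `S_M2`, `S_W`. Let
`D_θ a b = E_a [∑_{c, c.1 = b} (1 - exp(-θ B_c)) / θ] = (A a b - K_θ a b) / θ`. It is nonincreasing in `θ`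
(as `(1 - exp(-θ x))/θ` is, `x ≥ 0`), and as `θ → 0` it tends to `E_a ∑_{c, c.1=b} B_c` (monotone
or dominated convergence, `(1-exp(-θx))/θ ≤ x`), which is finite. And
`ρ⁻¹ m(a ↦ E_a ∑_c e_c B_c) = (ρ - 1) m(E W²)`: a.e. `B_c = ρ W - W_c`, so
`E_a ∑_c e_c B_c = E_a (∑_c e_c)(∑_c W_c) - E_a ∑_c e_c W_c = E_{q a} (∑_b x_b e_b)^2 - (A e²) a` (given the
offspring, the `W_c` are independent with means `e_c`), and M2 for `TT WW = ρ WW` reads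
`ρ² E_a W² = A(E W² - e²) a + E_{q a}(∑_b x_b e_b)^2`; take `m` and use `left`. -/
def S_BETA (q : Q → Measure (Q → ℕ)) (ρ : ℝ) (e m : Q → ℝ) : Prop :=
  (∀ a b θ θ', 0 < θ → θ ≤ θ' →
    0 ≤ (mA q a b - Kth q ρ e θ' a b) / θ' ∧
    (mA q a b - Kth q ρ e θ' a b) / θ' ≤ (mA q a b - Kth q ρ e θ a b) / θ) ∧
  Tendsto (fun θ => ρ⁻¹ * ∑ a, m a * ∑ b, (mA q a b - Kth q ρ e θ a b) / θ * e b) (𝓝[>] 0)
    (𝓝 ((ρ - 1) * etaA q ρ e m))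

open Classical in
/-- **TAIL** (exponential lower tail), given `Hyp`, `S_SH`, `S_M1`, `S_M3`, `S_PERT Q`, `S_BETA`,
`S_W`, `S_LEV`. For a.e. `ω` the recursion `ρ W_v = ∑_c W_(c::v)` holds at all vertices, hence
`B` of the child `c` of `v` is `ρ W_v - W_(c::v)`, and the sum of the `B` along the path to `v` is
`Y_v = (ρ-1) S_v - ρ W_v + ρ W_[]`. So `∑_{v ∈ Lev r} (ρ + d_v) exp(-θ Y_v) = (Tth θ)^[r] (ρ + d)`, of
mean `K_θ^r (ρ + E d) ≤ K K_θ^r g ≤ K ρ^r (1 - θ(β - 2δ))^r g` where `β = (ρ-1) etaA`: first choose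
`θ'` by BETA with `β' := ρ⁻¹ m(D_θ' e) ≥ β - δ`, then `θ ≤ θ'` by PERT for `D = D_θ'`;
`K_θ = A - θ D_θ ≤ A - θ D_θ'`. Markov's inequality with `δ = ε/4`. -/
def S_TAIL (q : Q → Measure (Q → ℕ)) (ρ : ℝ) (e m : Q → ℝ) : Prop :=
  ∀ ε : ℝ, 0 < ε → ∃ K c : ℝ, 0 ≤ K ∧ 0 < c ∧ ∀ (r : ℕ) (a : Q),
    ∫⁻ ω, ENNReal.ofReal (∑ v ∈ Lev (cht ω) r, (ρ + (cht ω v).card) *
      (if (ρ - 1) * Sf (Wv ρ e a ω) v - ρ * Wv ρ e a ω v + ρ * Wv ρ e a ω [] <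
        ((ρ - 1) * etaA q ρ e m - ε) * r then 1 else 0)) ∂(law q a) ≤
      ENNReal.ofReal (K * (ρ * Real.exp (-c)) ^ r)

open Classical in
/-- **LOW**, given `Hyp`, `S_M1`, `S_LEV`, `S_TAIL`. For `v ∈ Lev k` and `i ≤ k`, `u = v.drop i`,
`v = w ++ u`, and `S_v - S_u`, `W_v`, `W_u` are the quantities of `w` in the tree `sh u ω` (`Sf` of
`w`, `Wv w`, `Wv []`), so the mean of
`∑_{v ∈ Lev k} ρ^(-k) (ρ + d_v) 1{bad at i}` is at most `ρ^(-k) K ρ^(k-i) K ρ^i exp(-c i)` (M1 iterated on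
`T^(k-i)`, or `S_LEV` part 2). Sum over `i ≥ ε H`, `k ≤ A H`, times `H²`: summable in `H`. First for
`ε = 1/n`, `n ∈ ℕ`, then for all `ε` by monotonicity of `Bad` in `ε`. -/
def S_LOW (q : Q → Measure (Q → ℕ)) (ρ : ℝ) (e m : Q → ℝ) : Prop :=
  ∀ a, ∀ᵐ ω ∂(law q a), ∀ ε : ℝ, 0 < ε → ∀ A : ℕ, Tendsto (fun H : ℕ => (H : ℝ) ^ 2 *
    ∑ k ∈ Finset.range (A * H + 1), ∑ v ∈ Lev (cht ω) k, (ρ⁻¹) ^ k * (ρ + (cht ω v).card) *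
      (if Bad ρ (Wv ρ e a ω) (etaA q ρ e m) ε (ε * H) v then 1 else 0)) atTop (𝓝 0)

/-- **UPP**, given `Hyp`, `S_SH`, `S_M1`, `S_W`, `S_LLN`, `S_LEV`, `S_LOW`. Let `η = etaA`,
`κ = ∑ m b * (ρ + ∑ A b b')` (`= m(E(ρ + d))`), `D_i(u) = ρ^(-i) ∑_{v ∈ Lev i of sh u} (ρ + d_v)`. Then
`∑_{v ∈ Lev k} ρ^(-k) (ρ + d_v) S_v = ∑_{j=1}^k ∑_{u ∈ Lev j} ρ^(-j) W_u D_(k-j)(u)`.
By the last item of `S_W`, `D_i = κ W + Δ_i` with `E Δ_i² ≤ K s^i`; put `F_I = ∑_{i ≥ I} |Δ_i| ∈ L²`,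
`‖F_I‖ → 0`. The sum is at most
`κ ∑_{j ≤ k} ∑_{u ∈ Lev j} ρ^(-j) W_u² + ∑_{j ≤ k-I} ∑ ρ^(-j) W_u F_I(u) + ∑_{k-I<j≤k} ∑ ρ^(-j) W_u F_0(u)`, and by
the LLN (for `W²`, `W F_I`, `W F_0`) this is `≤ κ η W k + o(k) + k K ‖F_I‖ W`. So
`limsup (1/k) ∑_{Lev k} ρ^(-k) (ρ+d_v)(S_v - η k) ≤ 0` using also the LLN for `ρ + d`. The negative part:
by LOW with `i = k` (ancestor the root) `S_v ≥ (η - ε/(ρ-1)) k - const` except on a set of small weight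
and `S_v ≥ 0` a.e.; so the sum of the negative parts is `≤ ε k K + o(k)`. Positive part = sum +
negative part. -/
def S_UPP (q : Q → Measure (Q → ℕ)) (ρ : ℝ) (e m : Q → ℝ) : Prop :=
  ∀ a, ∀ᵐ ω ∂(law q a), Tendsto (fun k : ℕ => ((k : ℝ))⁻¹ *
    ∑ v ∈ Lev (cht ω) k, (ρ⁻¹) ^ k * (ρ + (cht ω v).card) *
      max 0 (Sf (Wv ρ e a ω) v - etaA q ρ e m * k)) atTop (𝓝 0)

/-- **SQUI**, given `Hyp`, `S_M1`, `S_W`, `S_LLN`, `S_LEV`: the LLN for `ρ + d`, `W²`,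
`W² 1{W > M}` (`M ∈ ℕ`); a convergent sequence is bounded; `E_b W² 1{W > M} → 0` as `M → ∞`. -/
def S_SQUI (q : Q → Measure (Q → ℕ)) (ρ : ℝ) (e : Q → ℝ) : Prop :=
  ∀ a, ∀ᵐ ω ∂(law q a),
    (∃ C, ∀ k, ∑ v ∈ Lev (cht ω) k, (ρ⁻¹) ^ k * (ρ + (cht ω v).card) ≤ C) ∧
    (∃ C, ∀ k, ∑ v ∈ Lev (cht ω) k, (ρ⁻¹) ^ k * Wv ρ e a ω v ^ 2 ≤ C) ∧
    ∀ ε : ℝ, 0 < ε → ∃ M : ℝ, ∃ k₀ : ℕ, ∀ k ≥ k₀,
      ∑ v ∈ Lev (cht ω) k, (ρ⁻¹) ^ k *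
        (if M < Wv ρ e a ω v then Wv ρ e a ω v ^ 2 else 0) ≤ ε

/-- the average of the bounded function `G` -/
noncomputable def cG (q : Q → Measure (Q → ℕ)) (ρ : ℝ) (m : Q → ℝ) (G : Q → Env Q → ℝ) : ℝ :=
  (∑ b, m b * ∫ ω, (ρ + (cht ω []).card) * G b ω ∂(law q b)) /
    ∑ b, m b * ∫ ω, (ρ + (cht ω []).card) ∂(law q b)

/-- **POIS**, given `Hyp`, `S_SH`, `S_M1`, `S_M2`, `S_KEY`, `S_W`, `S_LLN`, `S_LEV`. Let
`φ b ω = (ρ + (cht ω []).card) * (G b ω - cG)`, in `L²` with `m(E φ) = 0`; `L_j = ρ^(-j) T^j φ`;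
`F a ω = ∑' j, |L_j|` (a.e. finite, in `L²` by KEY; take e.g. the `toReal` of the `ℝ≥0∞` sum),
`F v = F (ty a v) (sh v ω)`; the LLN for `F²` gives the bound. For `H` take
`Γ v = if v.length ≤ H then ∑_{j < H - v.length + 1} L_j (ty a v) (sh v ω) else 0`; the recursion is
`L_0 = φ`, `L_(j+1) = ρ⁻¹ T L_j` (`Function.iterate_succ_apply'`), `sh [c] (sh v ω) = sh (c :: v) ω`. -/
def S_POIS (q : Q → Measure (Q → ℕ)) (ρ : ℝ) (m : Q → ℝ) : Prop :=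
  ∀ (G : Q → Env Q → ℝ) (M : ℝ), (∀ b, Measurable (G b)) → (∀ b ω, |G b ω| ≤ M) →
    ∀ a, ∀ᵐ ω ∂(law q a), Pois ρ (cht ω) (fun v => G (ty a v) (sh v ω)) (cG q ρ m G)

/-- the functional `VL` as a function of the subtree -/
noncomputable def GLf (ρ : ℝ) (e : Q → ℝ) (L : ℝ) (b : Q) (ω : Env Q) : ℝ :=
  (∑ c ∈ chd (ω []), tru L (WW ρ e c.1 (sh [c] ω)) ^ 2 + ρ * tru L (WW ρ e b ω) ^ 2) /
      (ρ + (chd (ω [])).card) -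
    ((∑ c ∈ chd (ω []), tru L (WW ρ e c.1 (sh [c] ω)) - ρ * tru L (WW ρ e b ω)) /
      (ρ + (chd (ω [])).card)) ^ 2

/-- **CL** (the constants converge), given `Hyp`, `S_SH`, `S_M1`, `S_W`: dominated convergence
(`|GLf L| * (ρ + d) ≤ ∑_c W_c² + ρ W²`; the mean `∑_c W_c - ρ W` vanishes a.e. in the limit) and
`m(E ∑_c W_c²) = m(A (E W²)) = ρ m(E W²)`, `m(E (ρ + d)) = 2 ρ m(1)`. -/
def S_CL (q : Q → Measure (Q → ℕ)) (ρ : ℝ) (e m : Q → ℝ) : Prop :=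
  Tendsto (fun L : ℕ => cG q ρ m (GLf ρ e L)) atTop (𝓝 (etaA q ρ e m / ∑ b, m b))

end Pool.Agent.H979.GW
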