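import Pool.Agent.H979.GW.StmA

set_option autoImplicit false
set_option linter.unusedSectionVars false
set_option linter.unusedVariables false

open MeasureTheory ProbabilityTheory Filter Topology Set
open scoped ENNReal NNReal

/-!
# Part A: the tree is regular, a.s. on survival
-/

namespace Pool.Agent.H979.GW

variable {Q : Type} [Fintype Q] [DecidableEq Q]

theorem sh_nil (ω : Env Q) : sh [] ω = ω := by
  funext u; simp [sh]

theorem sh_sh (u v : Vx Q) (ω : Env Q) : sh u (sh v ω) = sh (u ++ v) ω := by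
  funext w; simp [sh]

theorem ty_append (a : Q) (u v : Vx Q) : ty a (u ++ v) = ty (ty a v) u := by
  cases u <;> rfl

theorem sh_root (v : Vx Q) (ω : Env Q) : sh v ω [] = ω v := by simp [sh]

/-- a property which holds a.e. for all types holds at all vertices -/
theorem ae_allv (q : Q → Measure (Q → ℕ)) [∀ a, IsProbabilityMeasure (q a)] (h1 : S_SH q)
    {p : Q → Env Q → Prop} (h : ∀ b, ∀ᵐ ω ∂(law q b), p b ω) (a : Q) :
    ∀ᵐ ω ∂(law q a), ∀ v : Vx Q, p (ty a v) (sh v ω) := by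
  rw [ae_all_iff]
  intro v
  obtain ⟨m1, m2⟩ := h1 a v
  have h2 := h (ty a v)
  rw [← m2] at h2
  exact ae_of_ae_map m1.aemeasurable h2

theorem pois_congr {Λ : Type} [DecidableEq Λ] {ρ : ℝ} {ch : List Λ → Finset Λ}
    {g g' : List Λ → ℝ} {c : ℝ} (h : Pois ρ ch g c) (hg : ∀ v, v ≠ [] → g v = g' v) :
    Pois ρ ch g' c := by
  obtain ⟨C, F, h1, h2⟩ := h
  refine ⟨C, F, h1, fun H => ?_⟩
  obtain ⟨Γ, h3, h4, h5⟩ := h2 H
  exact ⟨Γ, h3, h4, fun v hv hn hl => by rw [← hg v hn]; exact h5 v hv hn hl⟩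

theorem tru_abs_le {L : ℝ} (hL : 0 ≤ L) (x : ℝ) : |tru L x| ≤ L := by
  unfold tru
  rw [abs_le]
  exact ⟨le_max_left _ _, max_le (by linarith) (min_le_left _ _)⟩

theorem tru_sq_le {L : ℝ} (hL : 0 ≤ L) (x : ℝ) : tru L x ^ 2 ≤ L ^ 2 := by
  rw [← sq_abs]
  exact pow_le_pow_left₀ (abs_nonneg _) (tru_abs_le hL x) 2

theorem continuous_tru (L : ℝ) : Continuous (tru L) := by
  unfold tru
  exact continuous_const.max (continuous_const.min continuous_id)

theorem GLf_bdd {ρ : ℝ} (hρ : 0 < ρ) (e : Q → ℝ) {L : ℝ} (hL : 0 ≤ L) (b : Q) (ω : Env Q) :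
    |GLf ρ e L b ω| ≤ 2 * L ^ 2 := by
  unfold GLf
  have hd : 0 < ρ + ((chd (ω [])).card : ℝ) := by positivity
  have h1 : 0 ≤ (∑ c ∈ chd (ω []), tru L (WW ρ e c.1 (sh [c] ω)) ^ 2 +
      ρ * tru L (WW ρ e b ω) ^ 2) / (ρ + (chd (ω [])).card) :=
    div_nonneg (add_nonneg (Finset.sum_nonneg fun _ _ => sq_nonneg _)
      (mul_nonneg hρ.le (sq_nonneg _))) hd.le
  have h2 : (∑ c ∈ chd (ω []), tru L (WW ρ e c.1 (sh [c] ω)) ^ 2 +
      ρ * tru L (WW ρ e b ω) ^ 2) / (ρ + (chd (ω [])).card) ≤ L ^ 2 := by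
    rw [div_le_iff₀ hd]
    have h3 : ∑ c ∈ chd (ω []), tru L (WW ρ e c.1 (sh [c] ω)) ^ 2 ≤ (chd (ω [])).card * L ^ 2 := by
      refine (Finset.sum_le_sum fun c _ => tru_sq_le hL _).trans ?_
      simp
    have h4 := mul_le_mul_of_nonneg_left (tru_sq_le hL (WW ρ e b ω)) hρ.le
    nlinarith
  have h5 : |(∑ c ∈ chd (ω []), tru L (WW ρ e c.1 (sh [c] ω)) - ρ * tru L (WW ρ e b ω)) /
      (ρ + (chd (ω [])).card)| ≤ L := by
    rw [abs_div, abs_of_pos hd, div_le_iff₀ hd]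
    have h6 : |∑ c ∈ chd (ω []), tru L (WW ρ e c.1 (sh [c] ω))| ≤ (chd (ω [])).card * L := by
      refine (Finset.abs_sum_le_sum_abs _ _).trans ((Finset.sum_le_sum fun c _ =>
        tru_abs_le hL _).trans ?_)
      simp
    have h7 : |ρ * tru L (WW ρ e b ω)| ≤ ρ * L := by
      rw [abs_mul, abs_of_pos hρ]
      exact mul_le_mul_of_nonneg_left (tru_abs_le hL _) hρ.le
    have := abs_sub (∑ c ∈ chd (ω []), tru L (WW ρ e c.1 (sh [c] ω))) (ρ * tru L (WW ρ e b ω))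
    nlinarith
  have h8 : ((∑ c ∈ chd (ω []), tru L (WW ρ e c.1 (sh [c] ω)) - ρ * tru L (WW ρ e b ω)) /
      (ρ + (chd (ω [])).card)) ^ 2 ≤ L ^ 2 := by
    rw [← sq_abs]
    exact pow_le_pow_left₀ (abs_nonneg _) h5 2
  have h9 := sq_nonneg ((∑ c ∈ chd (ω []), tru L (WW ρ e c.1 (sh [c] ω)) -
    ρ * tru L (WW ρ e b ω)) / (ρ + (chd (ω [])).card))
  rw [abs_le]
  constructor <;> nlinarith

theorem measurable_sh (v : Vx Q) : Measurable (sh (Q := Q) v) :=
  measurable_pi_lambda _ fun u => measurable_pi_apply (u ++ v)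

theorem measurable_sum_range {Ω : Type*} [MeasurableSpace Ω] {n : Ω → ℕ} (hn : Measurable n)
    {g : ℕ → Ω → ℝ} (hg : ∀ i, Measurable (g i)) :
    Measurable (fun ω => ∑ i ∈ Finset.range (n ω), g i ω) := by
  have h1 : Measurable (fun p : ℕ × Ω => ∑ i ∈ Finset.range p.1, g i p.2) :=
    measurable_from_prod_countable_right fun x =>
      Finset.measurable_sum (Finset.range x) fun c _ => hg c
  exact h1.comp (hn.prodMk measurable_id)

theorem measurable_sum_chd {f : Q × ℕ → Env Q → ℝ} (hf : ∀ c, Measurable (f c)) :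
    Measurable (fun ω : Env Q => ∑ c ∈ chd (ω []), f c ω) := by
  have h1 : (fun ω : Env Q => ∑ c ∈ chd (ω []), f c ω) =
      fun ω => ∑ b, ∑ i ∈ Finset.range (ω [] b), f (b, i) ω := by
    funext ω
    exact sum_chd (ω []) (fun c => f c ω)
  rw [h1]
  refine Finset.measurable_sum Finset.univ fun b _ => ?_
  exact measurable_sum_range ((measurable_pi_apply b).comp (measurable_pi_apply ([] : Vx Q)))
    (fun i => hf (b, i))

theorem measurable_card_chd : Measurable (fun ω : Env Q => ((chd (ω [])).card : ℝ)) := by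
  have h := measurable_sum_chd (Q := Q) (f := fun _ _ => 1) (fun _ => measurable_const)
  simpa using h

theorem GLf_meas {ρ : ℝ} {e : Q → ℝ} (h : ∀ a, Measurable (WW ρ e a)) (L : ℝ) (b : Q) :
    Measurable (GLf ρ e L b) := by
  unfold GLf
  have h1 : Measurable (fun ω : Env Q => ∑ c ∈ chd (ω []), tru L (WW ρ e c.1 (sh [c] ω)) ^ 2) :=
    measurable_sum_chd (f := fun c ω => tru L (WW ρ e c.1 (sh [c] ω)) ^ 2) fun c =>
      (((continuous_tru L).measurable.comp ((h c.1).comp (measurable_sh [c]))).pow_const 2)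
  have h2 : Measurable (fun ω : Env Q => ∑ c ∈ chd (ω []), tru L (WW ρ e c.1 (sh [c] ω))) :=
    measurable_sum_chd (f := fun c ω => tru L (WW ρ e c.1 (sh [c] ω))) fun c =>
      ((continuous_tru L).measurable.comp ((h c.1).comp (measurable_sh [c])))
  have h3 : Measurable (fun ω : Env Q => tru L (WW ρ e b ω)) :=
    (continuous_tru L).measurable.comp (h b)
  have h4 := measurable_card_chd (Q := Q)
  exact ((h1.add (measurable_const.mul (h3.pow_const 2))).div (measurable_const.add h4)).sub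
    (((h2.sub (measurable_const.mul h3)).div (measurable_const.add h4)).pow_const 2)

theorem VL_eq (ρ : ℝ) (e : Q → ℝ) (L : ℝ) (a : Q) (ω : Env Q) (v : Vx Q) (hv : v ≠ []) :
    GLf ρ e L (ty a v) (sh v ω) = VL ρ (cht ω) (Wv ρ e a ω) L v := by
  cases v with
  | nil => exact absurd rfl hv
  | cons c v =>
    show _ = (∑ b ∈ cht ω (c :: v), tru L (Wv ρ e a ω (b :: c :: v)) ^ 2 +
      ρ * tru L (Wv ρ e a ω (c :: v)) ^ 2) / (ρ + (cht ω (c :: v)).card) -
      ((∑ b ∈ cht ω (c :: v), tru L (Wv ρ e a ω (b :: c :: v)) - ρ * tru L (Wv ρ e a ω (c :: v))) /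
      (ρ + (cht ω (c :: v)).card)) ^ 2
    unfold GLf cht Wv
    rw [sh_root]
    simp only [sh_sh]
    rfl

theorem etaA_pos (q : Q → Measure (Q → ℕ)) [∀ a, IsProbabilityMeasure (q a)] {ρ : ℝ} {e m : Q → ℝ}
    {C r : ℝ} (hy : Hyp q ρ e m C r) (hW : S_W q ρ e m) [Nonempty Q] : 0 < etaA q ρ e m := by
  unfold etaA
  refine Finset.sum_pos (fun b _ => mul_pos (hy.pf.m_pos b) ?_) Finset.univ_nonempty
  have h1 := hW.2.2.1 b
  have h2 := hW.2.2.2.1 b
  have h0 := hW.2.1 b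
  have i2 : Integrable (fun ω => WW ρ e b ω ^ 2) (law q b) := h1.integrable_sq
  rcases (integral_nonneg (μ := law q b) (f := fun ω => WW ρ e b ω ^ 2)
    (fun ω => sq_nonneg _)).lt_or_eq with h | h
  · exact h
  · exfalso
    have h3 := (integral_eq_zero_iff_of_nonneg (fun ω => sq_nonneg (WW ρ e b ω)) i2).1 h.symm
    have h4 : ∫ ω, WW ρ e b ω ∂(law q b) = 0 := by
      rw [integral_eq_zero_of_ae]
      filter_upwards [h3] with ω hω
      simpa using hω
    have := hy.pf.e_pos b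
    linarith

/-- **Part A**: the Galton-Watson tree is regular, a.s. on survival -/
theorem regA (q : Q → Measure (Q → ℕ)) [∀ a, IsProbabilityMeasure (q a)] {ρ : ℝ} {e m : Q → ℝ}
    {C r : ℝ} (hy : Hyp q ρ e m C r) [Nonempty Q] (hSH : S_SH q) (hW : S_W q ρ e m)
    (hPOS : S_POS q ρ e) (hSQ : S_SQUI q ρ e) (hPO : S_POIS q ρ m) (hCL : S_CL q ρ e m)
    (hLO : S_LOW q ρ e m) (hUP : S_UPP q ρ e m) (a : Q) :
    ∀ᵐ ω ∂(law q a), (∀ n, (Lev (cht ω) n).Nonempty) →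
      Reg ρ (cht ω) (Wv ρ e a ω) (fun L => cG q ρ m (GLf ρ e L)) (etaA q ρ e m / ∑ b, m b)
        (etaA q ρ e m) := by
  have hρ : 0 < ρ := zero_lt_one.trans hy.rho
  have hη := etaA_pos q hy hW
  have hm : 0 < ∑ b, m b := Finset.sum_pos (fun b _ => hy.pf.m_pos b) Finset.univ_nonempty
  have hrec := ae_allv q hSH (p := fun b ω => ρ * WW ρ e b ω =
    ∑ c ∈ chd (ω []), WW ρ e c.1 (sh [c] ω)) hW.2.2.2.2.2.1 a
  have hpo : ∀ᵐ ω ∂(law q a), ∀ L : ℕ, Pois ρ (cht ω) (fun v => GLf ρ e L (ty a v) (sh v ω))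
      (cG q ρ m (GLf ρ e L)) := by
    rw [ae_all_iff]
    intro L
    exact hPO (GLf ρ e L) (2 * L ^ 2) (GLf_meas hW.1 L)
      (fun b ω => GLf_bdd hρ e (Nat.cast_nonneg L) b ω) a
  filter_upwards [hrec, hpo, hPOS a, hSQ a, hLO a, hUP a] with ω h1 h2 h3 h4 h5 h6 hs
  refine ⟨hy.rho, hη, div_pos hη hm, fun v _ => hW.2.1 _ _, fun v _ => ?_, ?_, h4.1, h4.2.1,
    h4.2.2, hCL, fun L => pois_congr (h2 L) fun v hv => VL_eq ρ e L a ω v hv, h5, h6⟩
  · have := h1 v
    unfold Wv cht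
    rw [sh_root] at this
    rw [this]
    refine Finset.sum_congr rfl fun c _ => ?_
    rw [sh_sh]
    rfl
  · have := h3 hs
    unfold Wv
    rw [sh_nil]
    exact this

end Pool.Agent.H979.GW
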