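import Pool.Agent.H979.GW.Walk

set_option autoImplicit false
set_option linter.unusedSectionVars false
set_option linter.unusedVariables false

open MeasureTheory ProbabilityTheory Filter Topology Set
open scoped ENNReal NNReal

/-!
# Part C: the functional limit theorem for chains, convergence in the path space
-/

namespace Pool.Agent.H979.GW

open Pool.Agent.H979.QIP (P K V bm S)

/-- right continuous functions with left limits -/
def Cadl (x : ℝ≥0 → ℝ) : Prop :=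
  ∀ t, ContinuousWithinAt x (Ici t) t ∧ ∃ l, Tendsto x (𝓝[<] t) (𝓝 l)

/-- the space `D[0,∞)` -/
def DD : Type := {x : ℝ≥0 → ℝ // Cadl x}

/-- (sequential) continuity for the topology of uniform convergence on compact intervals -/
def ContLU (F : DD → ℝ) : Prop :=
  ∀ (x : ℕ → DD) (y : DD),
    (∀ T : ℝ≥0, TendstoUniformlyOn (fun k t => (x k).1 t) y.1 atTop (Iic T)) →
    Tendsto (fun k => F (x k)) atTop (𝓝 (F y))

theorem cadl_step (m : ℕ) (v : ℕ → ℝ) : Cadl (fun t : ℝ≥0 => v ⌊(m : ℝ) * t⌋₊) := by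
  intro t
  constructor
  · -- locally constant on the right
    refine ContinuousWithinAt.congr_of_eventuallyEq (f := fun _ => v ⌊(m : ℝ) * t⌋₊)
      continuousWithinAt_const ?_ rfl
    have h1 : (m : ℝ) * t < ⌊(m : ℝ) * t⌋₊ + 1 := Nat.lt_floor_add_one _
    have h2 : ∀ᶠ s : ℝ≥0 in 𝓝 t, (m : ℝ) * s < ⌊(m : ℝ) * t⌋₊ + 1 :=
      ((continuous_const.mul NNReal.continuous_coe).tendsto t).eventually (gt_mem_nhds h1)
    filter_upwards [self_mem_nhdsWithin, nhdsWithin_le_nhds h2] with s hs hs2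
    have h3 : t ≤ s := hs
    have h4 : ⌊(m : ℝ) * s⌋₊ = ⌊(m : ℝ) * t⌋₊ := by
      refine le_antisymm ?_ (Nat.floor_le_floor (by
        have : (t : ℝ) ≤ s := by exact_mod_cast h3
        exact mul_le_mul_of_nonneg_left this (Nat.cast_nonneg _)))
      exact Nat.lt_succ_iff.1 ((Nat.floor_lt (by positivity)).2 (by push_cast; exact hs2))
    rw [h4]
  · -- locally constant on the left
    refine ⟨v (⌈(m : ℝ) * t⌉₊ - 1), ?_⟩
    refine tendsto_const_nhds.congr' ?_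
    by_cases h0 : (m : ℝ) * t = 0
    · filter_upwards [self_mem_nhdsWithin] with s hs
      have h3 : s < t := hs
      have h5 : (m : ℝ) = 0 := by
        have ht : (t : ℝ) ≠ 0 := by
          have : (0 : ℝ≥0) < t := lt_of_le_of_lt zero_le h3
          exact_mod_cast this.ne'
        exact (mul_eq_zero.1 h0).resolve_right ht
      rw [h0, h5]
      simp
    · have hpos : 0 < (m : ℝ) * t := lt_of_le_of_ne (by positivity) (Ne.symm h0)
      have hc : 1 ≤ ⌈(m : ℝ) * t⌉₊ := Nat.one_le_iff_ne_zero.2 (by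
        rw [Ne, Nat.ceil_eq_zero, not_le]; exact hpos)
      have h1 : ((⌈(m : ℝ) * t⌉₊ - 1 : ℕ) : ℝ) < (m : ℝ) * t := by
        have := Nat.ceil_lt_add_one hpos.le
        rw [Nat.cast_sub hc]
        push_cast
        linarith
      have h2 : ∀ᶠ s : ℝ≥0 in 𝓝 t, ((⌈(m : ℝ) * t⌉₊ - 1 : ℕ) : ℝ) < (m : ℝ) * s :=
        ((continuous_const.mul NNReal.continuous_coe).tendsto t).eventually (lt_mem_nhds h1)
      filter_upwards [self_mem_nhdsWithin, nhdsWithin_le_nhds h2] with s hs hs2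
      have h3 : s < t := hs
      congr 1
      refine le_antisymm ((Nat.le_floor_iff (by positivity)).2 hs2.le) ?_
      have hmp : 0 < (m : ℝ) := by
        by_contra hcon
        have : (m : ℝ) = 0 := le_antisymm (not_lt.1 hcon) (Nat.cast_nonneg _)
        rw [this, zero_mul] at hpos
        exact lt_irrefl _ hpos
      have h4 : (m : ℝ) * s < (m : ℝ) * t := by
        have : (s : ℝ) < t := by exact_mod_cast h3
        exact mul_lt_mul_of_pos_left this hmp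
      have h5 : (m : ℝ) * s < ⌈(m : ℝ) * t⌉₊ := h4.trans_le (Nat.le_ceil _)
      have h6 : ⌊(m : ℝ) * s⌋₊ < ⌈(m : ℝ) * t⌉₊ := (Nat.floor_lt (by positivity)).2 h5
      omega

theorem cadl_of_continuous {x : ℝ≥0 → ℝ} (h : Continuous x) : Cadl x := fun t =>
  ⟨h.continuousWithinAt, x t, h.continuousWithinAt.mono_left le_rfl⟩

/-- the step path `t ↦ v ⌊m t⌋` -/
noncomputable def stepD (m : ℕ) (v : ℕ → ℝ) : DD := ⟨fun t => v ⌊(m : ℝ) * t⌋₊, cadl_step m v⟩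

/-- the path `t ↦ |b t|` -/
noncomputable def absD (b : ℝ≥0 → ℝ) (hb : Continuous b) : DD :=
  ⟨fun t => |b t|, cadl_of_continuous hb.abs⟩

/-- `B` is a standard Brownian motion -/
structure IsBM {Ω' : Type} [MeasurableSpace Ω'] (P' : Measure Ω') (B : ℝ≥0 → Ω' → ℝ) : Prop where
  meas : ∀ t, Measurable (B t)
  cont : ∀ ω', Continuous (fun t => B t ω')
  law : ∀ (k : ℕ) (t : Fin k → ℝ≥0) (u : Fin k → ℝ),
    ∫ ω', Complex.exp (Complex.I * ((∑ j, u j * B (t j) ω' : ℝ) : ℂ)) ∂P' =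
      Complex.exp (-((∑ j, ∑ l, ((min (t j) (t l) : ℝ≥0) : ℝ) * (u j * u l) : ℝ) : ℂ) / 2)

/-- **FCLT** (martingale functional limit theorem for an additive functional of a Markov chain).
Finite dimensional distributions: split `ξ = (tru L ξ - mean) + (rest - mean of the rest)`; for the
truncated part use `QIP.clt` (file `QIP/CLT.lean`) with time dependent
`ξ_j(x,y) = (∑_{i : j < ⌊t_i n⌋} u_i) * trc ξ (x,y) / √n` (bounded by `K L / √n`, and
`AT → ∑∑ min(t_i,t_l) u_i c_L u_l` in `L¹`, being bounded and convergent in probability); for the rest use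
`QIP.lenglart` and the last hypothesis. Modulus: `QIP.block_bound`, `QIP.blocks` (file `QIP/Modu.lean`) for
the truncated part with blocks of length `δ n` and `l = c / √n`..., `QIP.lenglart` for the rest. A template
with the same structure is `QIP/Fdd.lean`, `QIP/Fdd2.lean`, `QIP/Fdd3.lean`, `QIP/Modu2.lean`. -/
def S_FCLT : Prop := ∀ (X : Type) [Countable X] [MeasurableSpace X] [MeasurableSingletonClass X]
  (q : X → Measure X) [∀ x, IsProbabilityMeasure (q x)] (x₀ : X) (ξ : X → X → ℝ) (cL : ℕ → ℝ)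
  (σ2 : ℝ), (∀ x, V q ξ x ≠ ∞) → (∀ x, bm q ξ x = 0) → 0 ≤ σ2 → Tendsto cL atTop (𝓝 σ2) →
  (∀ (L : ℕ) (δ : ℝ), 0 < δ → Tendsto (fun n : ℕ => P q x₀ {w | δ * n <
    |∑ s ∈ Finset.range n, (∫ y, (tru L (ξ (w s) y) - ∫ z, tru L (ξ (w s) z) ∂(q (w s))) ^ 2
      ∂(q (w s))) - cL L * n|}) atTop (𝓝 0)) →
  (∀ δ η' : ℝ, 0 < δ → 0 < η' → ∃ L₀ : ℕ, ∀ L : ℕ, L₀ ≤ L → ∀ᶠ n : ℕ in atTop,
    P q x₀ {w | δ * n < ∑ s ∈ Finset.range n, ∫ y, (ξ (w s) y - tru L (ξ (w s) y)) ^ 2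
      ∂(q (w s))} ≤ ENNReal.ofReal η') →
  (∀ (k : ℕ) (t : Fin k → ℝ) (u : Fin k → ℝ), (∀ j, 0 ≤ t j) →
    Tendsto (fun n : ℕ => ∫ w, Complex.exp (Complex.I *
      ((∑ j, u j * (S ξ ⌊t j * n⌋₊ w / √n) : ℝ) : ℂ)) ∂(P q x₀)) atTop
      (𝓝 (Complex.exp (-((∑ j, ∑ l, min (t j) (t l) * (u j * σ2 * u l) : ℝ) : ℂ) / 2)))) ∧
  ∀ T ε η' : ℝ, 0 < T → 0 < ε → 0 < η' → ∃ δ : ℝ, 0 < δ ∧ ∀ᶠ n : ℕ in atTop,
    P q x₀ {w | ∃ j k : ℕ, (j : ℝ) ≤ T * n ∧ (k : ℝ) ≤ T * n ∧ |(j : ℝ) - k| ≤ δ * n ∧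
      ε * √n < |S ξ j w - S ξ k w|} ≤ ENNReal.ofReal η'

/-- **CONV** (convergence in the path space). `Z` satisfies the functional CLT (finite dimensional
distributions and modulus), and `H` is close to `|Z| / η`, uniformly on `[0, T n]`, for every `T`.
Then `H_⌊nt⌋ / (σ √n)`, `σ = √σ2 / η`, converges in law to `|B|` for the locally uniform topology.
Proof: the metric `d(x,y) = inf {ε > 0 : |x t - y t| ≤ ε for t ≤ 1/ε}` on `DD` induces this notion of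
convergence; by the portmanteau theorem it is enough to treat bounded Lipschitz `F`
(`QIP/Sk.lean`, `QIP/Sk2.lean`, `QIP/Sk3.lean`, theorem `sk_conv`, are a template with another metric);
on `[0,T]` interpolate `Z` linearly and use `QIP.func_conv` (file `QIP/Func2.lean`) and the continuity of
`z ↦ |z| / √σ2`; the maps `v ↦ stepD m v` are continuous, and `absD` is a limit of step paths. -/
def S_CONV : Prop := ∀ (Ξ : Type) [MeasurableSpace Ξ] (Pw : Measure Ξ) [IsProbabilityMeasure Pw]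
  (H Z : ℕ → Ξ → ℝ) (σ2 η : ℝ), 0 < σ2 → 0 < η → (∀ k, Measurable (H k)) →
  (∀ k, Measurable (Z k)) → (∀ ξ, Z 0 ξ = 0) →
  (∀ (k : ℕ) (t : Fin k → ℝ) (u : Fin k → ℝ), (∀ j, 0 ≤ t j) →
    Tendsto (fun n : ℕ => ∫ ξ, Complex.exp (Complex.I *
      ((∑ j, u j * (Z ⌊t j * n⌋₊ ξ / √n) : ℝ) : ℂ)) ∂Pw) atTop
      (𝓝 (Complex.exp (-((∑ j, ∑ l, min (t j) (t l) * (u j * σ2 * u l) : ℝ) : ℂ) / 2)))) →
  (∀ T ε η' : ℝ, 0 < T → 0 < ε → 0 < η' → ∃ δ : ℝ, 0 < δ ∧ ∀ᶠ n : ℕ in atTop,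
    Pw {ξ | ∃ j k : ℕ, (j : ℝ) ≤ T * n ∧ (k : ℝ) ≤ T * n ∧ |(j : ℝ) - k| ≤ δ * n ∧
      ε * √n < |Z j ξ - Z k ξ|} ≤ ENNReal.ofReal η') →
  (∀ T ε : ℝ, 0 < T → 0 < ε → Tendsto (fun n : ℕ => Pw {ξ | ∃ k : ℕ, (k : ℝ) ≤ T * n ∧
    ε * √n < |H k ξ - |Z k ξ| / η|}) atTop (𝓝 0)) →
  ∀ (Ω' : Type) [MeasurableSpace Ω'] (P' : Measure Ω') [IsProbabilityMeasure P']
    (B : ℝ≥0 → Ω' → ℝ) (hB : IsBM P' B) (F : DD → ℝ), ContLU F → (∃ C : ℝ, ∀ x, |F x| ≤ C) →
    Tendsto (fun n : ℕ => ∫ ξ, F (stepD n (fun k => H k ξ / (√σ2 / η * √n))) ∂Pw) atTop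
      (𝓝 (∫ ω', F (absD (fun t => B t ω') (hB.cont ω')) ∂P'))

/-- **BMX**: there is a standard Brownian motion (from `QIP.exists_BM`, file `QIP/BM.lean`). -/
def S_BMX : Prop := ∃ (Ω' : Type) (_ : MeasurableSpace Ω') (P' : Measure Ω')
  (_ : IsProbabilityMeasure P') (B : ℝ≥0 → Ω' → ℝ), IsBM P' B

end Pool.Agent.H979.GW
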