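import Pool.Agent.H979.GW.StmB
import Pool.Agent.H979.GW.StmC

set_option autoImplicit false
set_option linter.unusedSectionVars false
set_option linter.unusedVariables false

open MeasureTheory ProbabilityTheory Filter Topology Set
open scoped ENNReal NNReal

/-!
# Part B: assembly
-/

namespace Pool.Agent.H979.GW

open Pool.Agent.H979.QIP (P K V bm S P_zero)

section

variable {Λ : Type} [DecidableEq Λ]

theorem Sf_nonneg {ch : List Λ → Finset Λ} {W : List Λ → ℝ} (hW : ∀ v, InT ch v → 0 ≤ W v)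
    (v : List Λ) (hv : InT ch v) : 0 ≤ Sf W v := by
  induction v with
  | nil => exact le_rfl
  | cons c v ih => exact add_nonneg (hW _ hv) (ih hv.1)

theorem abs_Sg {ch : List Λ → Finset Λ} {W : List Λ → ℝ} (hW : ∀ v, InT ch v → 0 ≤ W v)
    (x : List Λ × Bool) (hv : InT ch x.1) : |Sg W x| = Sf W x.1 := by
  unfold Sg
  have h := Sf_nonneg hW x.1 hv
  split_ifs
  · exact abs_of_nonneg h
  · rw [abs_neg]; exact abs_of_nonneg h

theorem S_xi {ch : List Λ → Finset Λ} {W : List Λ → ℝ} {w : ℕ → List Λ × Bool}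
    (h0 : w 0 = ([], true)) (hT : ∀ s, InT ch (w s).1) (k : ℕ) : S (xi ch W) k w = Sg W (w k) := by
  induction k with
  | zero => rw [h0]; simp [S, Sg, Sf]
  | succ k ih =>
    have : S (xi ch W) (k + 1) w = S (xi ch W) k w + xi ch W (w k) (w (k + 1)) := by
      unfold S; rw [Finset.sum_range_succ]
    rw [this, ih]
    unfold xi
    rw [if_pos (hT k)]
    ring

theorem Bad_mono {ρ : ℝ} {W : List Λ → ℝ} {η ε ε' x : ℝ} (h : ε' ≤ ε) {v : List Λ}
    (hb : Bad ρ W η ε x v) : Bad ρ W η ε' x v := by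
  obtain ⟨i, h1, h2, h3⟩ := hb
  refine ⟨i, h1, h2, h3.trans_le ?_⟩
  have : (0 : ℝ) ≤ i := Nat.cast_nonneg i
  nlinarith

variable [Countable Λ]

/-- it is enough to bound probabilities on the event that the height is `O(√n)` -/
theorem tend_of {ρ : ℝ} [Fact (1 < ρ)] {ch : List Λ → Finset Λ}
    (hH : ∀ η' : ℝ, 0 < η' → ∃ A : ℝ, 0 < A ∧ ∀ᶠ n : ℕ in atTop,
      P (stp ρ ch) [] {w | ∃ s ≤ n, A * √n < ((w s).length : ℝ)} ≤ ENNReal.ofReal η')
    (p : ℕ → (ℕ → List Λ) → Prop)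
    (hp : ∀ A : ℝ, 0 < A → Tendsto (fun n : ℕ => P (stp ρ ch) []
      {w | (∀ s ≤ n, ((w s).length : ℝ) ≤ A * √n) ∧ p n w}) atTop (𝓝 0)) :
    Tendsto (fun n : ℕ => P (stp ρ ch) [] {w | p n w}) atTop (𝓝 0) := by
  rw [ENNReal.tendsto_atTop_zero]
  intro ε hε
  by_cases hε' : ε = ∞
  · exact ⟨0, fun n _ => by rw [hε']; exact le_top⟩
  have he : 0 < ε.toReal := ENNReal.toReal_pos hε.ne' hε'
  obtain ⟨A, hA, h1⟩ := hH (ε.toReal / 2) (half_pos he)
  have h2 := hp A hA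
  rw [ENNReal.tendsto_atTop_zero] at h2
  obtain ⟨N, hN⟩ := h2 (ENNReal.ofReal (ε.toReal / 2)) (ENNReal.ofReal_pos.2 (half_pos he))
  obtain ⟨N', hN'⟩ := eventually_atTop.1 h1
  refine ⟨max N N', fun n hn => ?_⟩
  have h3 : {w : ℕ → List Λ | p n w} ⊆
      {w | (∀ s ≤ n, ((w s).length : ℝ) ≤ A * √n) ∧ p n w} ∪
      {w | ∃ s ≤ n, A * √n < ((w s).length : ℝ)} := by
    intro w hw
    by_cases h : ∃ s ≤ n, A * √n < ((w s).length : ℝ)
    · exact Or.inr h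
    · push Not at h
      exact Or.inl ⟨h, hw⟩
  refine (measure_mono h3).trans ((measure_union_le _ _).trans ?_)
  refine (add_le_add (hN n ((le_max_left _ _).trans hn)) (hN' n ((le_max_right _ _).trans hn))).trans ?_
  rw [← ENNReal.ofReal_add (half_pos he).le (half_pos he).le, add_halves, ENNReal.ofReal_toReal hε']

theorem measurable_fst_path : Measurable (fun (w : ℕ → List Λ × Bool) (k : ℕ) => (w k).1) :=
  measurable_pi_lambda _ fun k => measurable_fst.comp (measurable_pi_apply k)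

theorem lump_le (hLUMP : S_LUMP) {ρ : ℝ} [Fact (1 < ρ)] (ch : List Λ → Finset Λ)
    (E : Set (ℕ → List Λ)) :
    P (sgc ρ ch) ([], true) {w | (fun k => (w k).1) ∈ E} ≤ P (stp ρ ch) [] E := by
  rw [← hLUMP Λ ρ ch [] true]
  exact Measure.le_map_apply measurable_fst_path.aemeasurable E

theorem lump_ae (hLUMP : S_LUMP) {ρ : ℝ} [Fact (1 < ρ)] (ch : List Λ → Finset Λ)
    {p : (ℕ → List Λ) → Prop} (h : ∀ᵐ w ∂(P (stp ρ ch) []), p w) :
    ∀ᵐ w ∂(P (sgc ρ ch) ([], true)), p (fun k => (w k).1) := by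
  rw [← hLUMP Λ ρ ch [] true] at h
  exact ae_of_ae_map measurable_fst_path.aemeasurable h

theorem root_card {ρ : ℝ} {ch : List Λ → Finset Λ} {W : List Λ → ℝ} {cL : ℕ → ℝ} {σ2 η : ℝ}
    (hR : Reg ρ ch W cL σ2 η) : (ch []).card ≠ 0 := by
  intro h
  rw [Finset.card_eq_zero] at h
  have h1 := hR.W_rec [] trivial
  rw [h, Finset.sum_empty] at h1
  have h2 := hR.W_root
  have h3 := hR.rho
  rcases mul_eq_zero.1 h1 with h4 | h4 <;> linarith

/-- the comparison of the height with the signed martingale -/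
theorem compar (hUPB : S_UPB) (hLOV : S_LOV) (hINT : S_INT) (hLUMP : S_LUMP) (hHEI : S_HEI)
    (hDET : S_DET) {ρ : ℝ} [hf : Fact (1 < ρ)] {ch : List Λ → Finset Λ} {W : List Λ → ℝ}
    {cL : ℕ → ℝ} {σ2 η : ℝ} (hR : Reg ρ ch W cL σ2 η)
    (hmod : ∀ T ε η' : ℝ, 0 < T → 0 < ε → 0 < η' → ∃ δ : ℝ, 0 < δ ∧ ∀ᶠ n : ℕ in atTop,
      P (sgc ρ ch) ([], true) {w | ∃ j k : ℕ, (j : ℝ) ≤ T * n ∧ (k : ℝ) ≤ T * n ∧
        |(j : ℝ) - k| ≤ δ * n ∧ ε * √n < |S (xi ch W) j w - S (xi ch W) k w|} ≤ ENNReal.ofReal η')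
    (T ε : ℝ) (hT : 0 < T) (hε : 0 < ε) :
    Tendsto (fun n : ℕ => P (sgc ρ ch) ([], true) {w | ∃ k : ℕ, (k : ℝ) ≤ T * n ∧
      ε * √n < |((w k).1.length : ℝ) - |S (xi ch W) k w| / η|}) atTop (𝓝 0) := by
  have hη := hR.eta
  have hρ := hR.rho
  have hroot := root_card hR
  rw [ENNReal.tendsto_atTop_zero]
  intro e₀ he₀
  by_cases he' : e₀ = ∞
  · exact ⟨0, fun n _ => by rw [he']; exact le_top⟩
  set η' : ℝ := e₀.toReal / 4 with hη'
  have hη'0 : 0 < η' := by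
    have := ENNReal.toReal_pos he₀.ne' he'
    positivity
  obtain ⟨K₀, hK₀, hD⟩ := hDET ρ η hρ hη
  -- the time horizon
  obtain ⟨T₀, hT₀⟩ := exists_nat_ge (max T 1)
  have hT1 : T ≤ T₀ := (le_max_left _ _).trans hT₀
  have hT2 : (1 : ℝ) ≤ T₀ := (le_max_right _ _).trans hT₀
  have hT₀0 : (0 : ℝ) < T₀ := by linarith
  have hsq : 0 < √(T₀ : ℝ) := Real.sqrt_pos.2 hT₀0
  have hsq1 : 1 ≤ √(T₀ : ℝ) := Real.one_le_sqrt.2 hT2
  obtain ⟨A₁, hA₁, hA⟩ := hHEI Λ ρ ch W cL σ2 η hR η' hη'0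
  set A₂ : ℝ := A₁ * √(T₀ : ℝ) with hA₂
  have hA₂0 : 0 < A₂ := mul_pos hA₁ hsq
  -- the small parameter
  obtain ⟨ε₁, hε₁, hε₁1, hε₁2⟩ : ∃ ε₁ : ℝ, 0 < ε₁ ∧ ε₁ ≤ (ρ - 1) * η / 2 ∧
      K₀ * (1 + A₂) * ε₁ ≤ η * ε := by
    have h1 : 0 < (ρ - 1) * η / 2 := by
      have : 0 < ρ - 1 := by linarith
      positivity
    have h2 : 0 < K₀ * (1 + A₂) + 1 := by positivity
    refine ⟨min ((ρ - 1) * η / 2) (η * ε / (K₀ * (1 + A₂) + 1)), lt_min h1 (by positivity),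
      min_le_left _ _, ?_⟩
    have h3 : K₀ * (1 + A₂) * min ((ρ - 1) * η / 2) (η * ε / (K₀ * (1 + A₂) + 1)) ≤
        (K₀ * (1 + A₂) + 1) * (η * ε / (K₀ * (1 + A₂) + 1)) := by
      refine mul_le_mul (by linarith) (min_le_right _ _) (lt_min h1 (by positivity)).le h2.le
    rwa [mul_div_cancel₀ _ h2.ne'] at h3
  obtain ⟨δ, hδ, hmo⟩ := hmod T₀ ε₁ η' hT₀0 hε₁ hη'0
  set δ₁ : ℝ := min δ 1 with hδ₁
  have hδ₁0 : 0 < δ₁ := lt_min hδ one_pos
  set ε₂ : ℝ := ε₁ / √(T₀ : ℝ) with hε₂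
  have hε₂0 : 0 < ε₂ := div_pos hε₁ hsq
  have hε₂1 : ε₂ ≤ ε₁ := div_le_self hε₁.le hsq1
  have hlo := hLOV Λ ρ ch W cL σ2 η hR A₁ ε₂ hA₁ hε₂0
  have hup := hUPB Λ ρ ch W cL σ2 η hR A₁ (δ₁ / (2 * T₀)) ε₂ hA₁ (by positivity) hε₂0
  rw [ENNReal.tendsto_atTop_zero] at hlo hup
  obtain ⟨N1, hN1⟩ := hlo (ENNReal.ofReal η') (ENNReal.ofReal_pos.2 hη'0)
  obtain ⟨N2, hN2⟩ := hup (ENNReal.ofReal η') (ENNReal.ofReal_pos.2 hη'0)
  obtain ⟨N3, hN3⟩ := eventually_atTop.1 hA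
  obtain ⟨N4, hN4⟩ := eventually_atTop.1 hmo
  obtain ⟨N5, hN5⟩ := exists_nat_gt (2 / δ₁)
  obtain ⟨N6, hN6⟩ := exists_nat_gt ((ρ * W [] / ε₁) ^ 2)
  have hT₀n : 1 ≤ T₀ := by exact_mod_cast hT2
  refine ⟨max (max (max N1 N2) (max N3 N4)) (max N5 (max N6 1)), fun n hn => ?_⟩
  have hn1 : N1 ≤ n := by omega
  have hn2 : N2 ≤ n := by omega
  have hn3 : N3 ≤ n := by omega
  have hn4 : N4 ≤ n := by omega
  have hn5 : N5 ≤ n := by omega
  have hn6 : N6 ≤ n := by omega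
  have hn7 : 1 ≤ n := by omega
  have hnn : n ≤ T₀ * n := Nat.le_mul_of_pos_left n hT₀n
  have hsn : √((T₀ * n : ℕ) : ℝ) = √(T₀ : ℝ) * √(n : ℝ) := by
    push_cast; rw [Real.sqrt_mul hT₀0.le]
  have e1 := hN1 (T₀ * n) (hn1.trans hnn)
  have e2 := hN2 (T₀ * n) (hn2.trans hnn)
  have e3 := hN3 (T₀ * n) (hn3.trans hnn)
  have e4 := hN4 n hn4
  have hae := lump_ae hLUMP ch (hINT Λ ρ ch hroot)
  have hz := P_zero (sgc ρ ch) ([], true)
  -- the inclusion
  have hsub : ∀ᵐ w ∂(P (sgc ρ ch) ([], true)), w ∈ {w : ℕ → List Λ × Bool | ∃ k : ℕ,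
      (k : ℝ) ≤ T * n ∧ ε * √n < |((w k).1.length : ℝ) - |S (xi ch W) k w| / η|} →
      w ∈ ({w : ℕ → List Λ × Bool | (fun k => (w k).1) ∈ {w : ℕ → List Λ | ∃ s ≤ T₀ * n,
        ((w s).length : ℝ) ≤ A₁ * √((T₀ * n : ℕ) : ℝ) ∧
        Bad ρ W η ε₂ (ε₂ * √((T₀ * n : ℕ) : ℝ)) (w s)}} ∪
      {w | (fun k => (w k).1) ∈ {w : ℕ → List Λ |
        (∀ s ≤ T₀ * n, ((w s).length : ℝ) ≤ A₁ * √((T₀ * n : ℕ) : ℝ)) ∧
        δ₁ / (2 * T₀) * ((T₀ * n : ℕ) : ℝ) < (((Finset.range (T₀ * n)).filter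
        (fun s => ε₂ * √((T₀ * n : ℕ) : ℝ) < Sf W (w s) - η * (w s).length)).card : ℝ)}}) ∪
      ({w | (fun k => (w k).1) ∈ {w : ℕ → List Λ |
        ∃ s ≤ T₀ * n, A₁ * √((T₀ * n : ℕ) : ℝ) < ((w s).length : ℝ)}} ∪
      {w | ∃ j k : ℕ, (j : ℝ) ≤ T₀ * n ∧ (k : ℝ) ≤ T₀ * n ∧
        |(j : ℝ) - k| ≤ δ * n ∧ ε₁ * √n < |S (xi ch W) j w - S (xi ch W) k w|}) := by
    filter_upwards [hae, hz] with w hw hw0 hk
    by_contra hcon
    simp only [mem_union, mem_setOf_eq, not_or, not_exists, not_and, not_lt] at hcon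
    obtain ⟨⟨c1, c2⟩, c3, c4⟩ := hcon
    obtain ⟨k, hk1, hk2⟩ := hk
    have hT : ∀ s, InT ch (w s).1 := fun s => (hw.2 s).1
    have hS : ∀ k, S (xi ch W) k w = Sg W (w k) := S_xi hw0 hT
    have hkn : k ≤ T₀ * n := by
      have : (k : ℝ) ≤ ((T₀ * n : ℕ) : ℝ) := by
        push_cast
        exact hk1.trans (mul_le_mul_of_nonneg_right hT1 (Nat.cast_nonneg n))
      exact_mod_cast this
    have hn0 : (0 : ℝ) < n := by exact_mod_cast hn7
    -- the block length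
    set d : ℕ := ⌊δ₁ * n⌋₊ with hd
    have hd1 : δ₁ * n < d + 1 := Nat.lt_floor_add_one _
    have hd2 : (d : ℝ) ≤ δ₁ * n := Nat.floor_le (by positivity)
    have hn5' : 2 < δ₁ * n := by
      have : 2 / δ₁ < (n : ℝ) := hN5.trans_le (by exact_mod_cast hn5)
      rw [div_lt_iff₀ hδ₁0] at this
      linarith
    have hd3 : 1 ≤ d := by
      have : (1 : ℝ) < d := by linarith
      exact_mod_cast this.le
    have hd4 : d ≤ T₀ * n := by
      have : (d : ℝ) ≤ n := hd2.trans (by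
        have := min_le_right δ 1
        nlinarith)
      have : d ≤ n := by exact_mod_cast this
      omega
    have hε2 : ε₂ * √((T₀ * n : ℕ) : ℝ) = ε₁ * √(n : ℝ) := by
      rw [hsn, hε₂]; field_simp
    have hW0 : ρ * W [] ≤ ε₁ * √(n : ℝ) := by
      have h1 : (ρ * W [] / ε₁) ^ 2 < n := hN6.trans_le (by exact_mod_cast hn6)
      have h2 : 0 ≤ ρ * W [] / ε₁ := by
        have := hR.W_root
        positivity
      have h3 : ρ * W [] / ε₁ < √(n : ℝ) := by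
        rw [Real.lt_sqrt h2]; exact h1
      rw [div_lt_iff₀ hε₁] at h3
      linarith
    have key := hD Λ ch W hR.W_nonneg (fun s => (w s).1) (T₀ * n) d (√(n : ℝ)) A₂ ε₁ hε₁ hε₁1
      (Real.sqrt_nonneg _) hA₂0.le (by rw [hw0]) hT
      (fun s => by
        rcases (hw.2 s).2 with ⟨b, _, h⟩ | h
        · exact Or.inl ⟨b, h⟩
        · exact Or.inr h) hd3 hd4 hW0
      (fun s hs => by
        have := c3 s hs
        rw [hsn, ← mul_assoc] at this
        exact this)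
      (fun s hs t ht hst htd => by
        have h1 := c4 s t (by exact_mod_cast hs) (by exact_mod_cast ht) (by
          have h2 : (s : ℝ) ≤ t := by exact_mod_cast hst
          have h3 : (t : ℝ) ≤ s + d := by exact_mod_cast htd
          rw [abs_sub_comm, abs_of_nonneg (by linarith)]
          have := min_le_left δ 1
          nlinarith)
        rw [hS, hS] at h1
        have h2 : |Sf W (w s).1 - Sf W (w t).1| ≤ |Sg W (w s) - Sg W (w t)| := by
          rw [← abs_Sg hR.W_nonneg (w s) (hT s), ← abs_Sg hR.W_nonneg (w t) (hT t)]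
          exact abs_abs_sub_abs_le_abs_sub _ _
        exact h2.trans h1)
      (fun s hs hb => by
        have h1 := c3 s hs
        refine c1 s hs h1 ?_
        rw [hε2]
        exact Bad_mono hε₂1 hb)
      (fun s hs => by
        by_contra hno
        push Not at hno
        have h1 := c2 c3
        have h2 : (Finset.Ico s (s + d)) ⊆ (Finset.range (T₀ * n)).filter
            (fun s => ε₂ * √((T₀ * n : ℕ) : ℝ) < Sf W (w s).1 - η * (w s).1.length) := by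
          intro t ht
          rw [Finset.mem_Ico] at ht
          rw [Finset.mem_filter, Finset.mem_range]
          refine ⟨by omega, ?_⟩
          rw [hε2]
          exact hno t ht.1 (by omega)
        have h3 := Finset.card_le_card h2
        rw [Nat.card_Ico] at h3
        have h4 : (d : ℝ) ≤ (((Finset.range (T₀ * n)).filter (fun s => ε₂ * √((T₀ * n : ℕ) : ℝ) <
            Sf W (w s).1 - η * (w s).1.length)).card : ℝ) := by
          have : d ≤ ((Finset.range (T₀ * n)).filter (fun s => ε₂ * √((T₀ * n : ℕ) : ℝ) <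
            Sf W (w s).1 - η * (w s).1.length)).card := by omega
          exact_mod_cast this
        have h5 : δ₁ / (2 * T₀) * ((T₀ * n : ℕ) : ℝ) = δ₁ * n / 2 := by
          push_cast; field_simp
        rw [h5] at h1
        linarith)
      k hkn
    have h6 : |((w k).1.length : ℝ) - |S (xi ch W) k w| / η| =
        |Sf W (w k).1 - η * (w k).1.length| / η := by
      rw [hS, abs_Sg hR.W_nonneg (w k) (hT k), eq_div_iff hη.ne', ← abs_of_pos hη, ← abs_mul,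
        abs_of_pos hη, sub_mul, div_mul_cancel₀ _ hη.ne', abs_sub_comm]
      ring_nf
    rw [h6, lt_div_iff₀ hη] at hk2
    have h7 : K₀ * (1 + A₂) * (ε₁ * √(n : ℝ)) ≤ η * ε * √(n : ℝ) := by
      have := mul_le_mul_of_nonneg_right hε₁2 (Real.sqrt_nonneg (n : ℝ))
      linarith
    have h8 : |Sf W (w k).1 - η * (w k).1.length| ≤ K₀ * (1 + A₂) * (ε₁ * √(n : ℝ)) := key
    nlinarith
  refine (measure_mono_ae hsub).trans ?_
  refine (measure_union_le _ _).trans ?_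
  refine (add_le_add ((measure_union_le _ _).trans (add_le_add
    ((lump_le hLUMP ch _).trans e1) ((lump_le hLUMP ch _).trans e2)))
    ((measure_union_le _ _).trans (add_le_add ((lump_le hLUMP ch _).trans e3) e4))).trans ?_
  rw [← ENNReal.ofReal_add hη'0.le hη'0.le, ← ENNReal.ofReal_add (by positivity) (by positivity)]
  have : η' + η' + (η' + η') = e₀.toReal := by rw [hη']; ring
  rw [this, ENNReal.ofReal_toReal he']

end

end Pool.Agent.H979.GW
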