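import Pool.Agent.H979.GW.AsmB

set_option autoImplicit false
set_option linter.unusedSectionVars false
set_option linter.unusedVariables false

open MeasureTheory ProbabilityTheory Filter Topology Set
open scoped ENNReal NNReal

/-!
# Part B: the limit theorem on a regular tree
-/

namespace Pool.Agent.H979.GW

open Pool.Agent.H979.QIP (P K V bm S P_zero dep_S)

/-- the path functionals are measurable -/
theorem meas_stepD {F : DD → ℝ} (hF : ContLU F) (n : ℕ) :
    Measurable (fun v : ℕ → ℝ => F (stepD n v)) := by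
  refine Continuous.measurable ?_
  rw [continuous_iff_seqContinuous]
  intro v y hv
  refine hF (fun k => stepD n (v k)) (stepD n y) fun T => ?_
  rw [Metric.tendstoUniformlyOn_iff]
  intro ε hε
  have h1 : ∀ i ∈ Finset.range (⌊(n : ℝ) * T⌋₊ + 1), ∀ᶠ k in atTop, dist (y i) (v k i) < ε := by
    intro i _
    have h2 := (tendsto_pi_nhds.1 hv) i
    have h3 := (Metric.tendsto_nhds.1 h2) ε hε
    filter_upwards [h3] with k hk
    rw [dist_comm]; exact hk
  have h2 := (Finset.eventually_all (Finset.range (⌊(n : ℝ) * T⌋₊ + 1))).2 h1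
  filter_upwards [h2] with k hk t ht
  have ht' : t ≤ T := ht
  refine hk _ (Finset.mem_range.2 (Nat.lt_succ_of_le ?_))
  refine Nat.floor_le_floor (mul_le_mul_of_nonneg_left ?_ (Nat.cast_nonneg n))
  exact_mod_cast ht'

section

variable {Λ : Type} [DecidableEq Λ] [Countable Λ]

/-- the functional limit theorem on a regular tree -/
theorem partB (hQV : S_QV) (hREM : S_REM) (hUPB : S_UPB) (hLOV : S_LOV) (hINT : S_INT)
    (hLUMP : S_LUMP) (hSGN : S_SGN) (hHEI : S_HEI) (hDET : S_DET) (hFCLT : S_FCLT)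
    (hCONV : S_CONV) {ρ : ℝ} [hf : Fact (1 < ρ)] {ch : List Λ → Finset Λ} {W : List Λ → ℝ}
    {cL : ℕ → ℝ} {σ2 η : ℝ} (hR : Reg ρ ch W cL σ2 η)
    (Ω' : Type) [MeasurableSpace Ω'] (P' : Measure Ω') [IsProbabilityMeasure P']
    (B : ℝ≥0 → Ω' → ℝ) (hB : IsBM P' B) (F : DD → ℝ) (hF : ContLU F)
    (hb : ∃ C : ℝ, ∀ x, |F x| ≤ C) :
    Tendsto (fun n : ℕ => ∫ w, F (stepD n (fun k => ((w k).length : ℝ) / (√σ2 / η * √n)))
      ∂(P (stp ρ ch) [])) atTop (𝓝 (∫ ω', F (absD (fun t => B t ω') (hB.cont ω')) ∂P')) := by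
  have hroot := root_card hR
  obtain ⟨g1, g2, g3, g4⟩ := hSGN Λ ρ ch W hR.W_nonneg hR.W_rec hR.W_root
  have hH := hHEI Λ ρ ch W cL σ2 η hR
  have hae := lump_ae hLUMP ch (hINT Λ ρ ch hroot)
  have hz := P_zero (sgc ρ ch) ([], true)
  -- the averages
  have a1 : ∀ (L : ℕ) (δ : ℝ), 0 < δ → Tendsto (fun n : ℕ => P (sgc ρ ch) ([], true) {w | δ * n <
      |∑ s ∈ Finset.range n, (∫ y, (tru L (xi ch W (w s) y) -
        ∫ z, tru L (xi ch W (w s) z) ∂(sgc ρ ch (w s))) ^ 2
        ∂(sgc ρ ch (w s))) - cL L * n|}) atTop (𝓝 0) := by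
    intro L δ hδ
    have h1 := tend_of hH (fun n w => δ * n < |∑ s ∈ Finset.range n, VL ρ ch W L (w s) - cL L * n|)
      (fun A hA => hQV Λ ρ ch W cL σ2 η hR (VL ρ ch W L) (cL L) (hR.pois L) A δ hA hδ)
    refine tendsto_of_tendsto_of_tendsto_of_le_of_le tendsto_const_nhds h1
      (fun _ => zero_le) (fun n => ?_)
    refine le_trans (measure_mono_ae ?_) (lump_le hLUMP ch _)
    filter_upwards [hae] with w hw h
    have h2 : ∀ s, (∫ y, (tru L (xi ch W (w s) y) -
        ∫ z, tru L (xi ch W (w s) z) ∂(sgc ρ ch (w s))) ^ 2 ∂(sgc ρ ch (w s))) =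
        VL ρ ch W L (w s).1 := fun s => (g3 (w s).1 (w s).2 (hw.2 s).1 L).1
    have h3 : δ * n < |∑ s ∈ Finset.range n, (∫ y, (tru L (xi ch W (w s) y) -
        ∫ z, tru L (xi ch W (w s) z) ∂(sgc ρ ch (w s))) ^ 2
        ∂(sgc ρ ch (w s))) - cL L * n| := h
    simp only [h2] at h3
    exact h3
  -- the rest
  have a2 : ∀ δ η' : ℝ, 0 < δ → 0 < η' → ∃ L₀ : ℕ, ∀ L : ℕ, L₀ ≤ L → ∀ᶠ n : ℕ in atTop,
      P (sgc ρ ch) ([], true) {w | δ * n < ∑ s ∈ Finset.range n,
        ∫ y, (xi ch W (w s) y - tru L (xi ch W (w s) y)) ^ 2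
        ∂(sgc ρ ch (w s))} ≤ ENNReal.ofReal η' := by
    intro δ η' hδ hη'
    obtain ⟨A, hA, h1⟩ := hH (η' / 2) (half_pos hη')
    obtain ⟨L₀, h2⟩ := hREM Λ ρ ch W cL σ2 η hR A δ (η' / 2) hA hδ (half_pos hη')
    refine ⟨L₀, fun L hL => ?_⟩
    filter_upwards [h1, h2 L hL] with n hn1 hn2
    have h3 : P (stp ρ ch) [] {w : ℕ → List Λ | δ * n < ∑ s ∈ Finset.range n, VR ρ ch W L (w s)} ≤
        ENNReal.ofReal η' := by
      have h4 : {w : ℕ → List Λ | δ * n < ∑ s ∈ Finset.range n, VR ρ ch W L (w s)} ⊆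
          {w | ∃ s ≤ n, A * √n < ((w s).length : ℝ)} ∪
          {w | (∀ s ≤ n, ((w s).length : ℝ) ≤ A * √n) ∧
            δ * n < ∑ s ∈ Finset.range n, VR ρ ch W L (w s)} := by
        intro w hw
        by_cases h : ∃ s ≤ n, A * √n < ((w s).length : ℝ)
        · exact Or.inl h
        · push Not at h
          exact Or.inr ⟨h, hw⟩
      refine (measure_mono h4).trans ((measure_union_le _ _).trans ((add_le_add hn1 hn2).trans ?_))
      rw [← ENNReal.ofReal_add (half_pos hη').le (half_pos hη').le, add_halves]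
    refine le_trans (le_trans (measure_mono_ae ?_) (lump_le hLUMP ch _)) h3
    filter_upwards [hae] with w hw h
    have h2 : ∀ s, (∫ y, (xi ch W (w s) y - tru L (xi ch W (w s) y)) ^ 2 ∂(sgc ρ ch (w s))) =
        VR ρ ch W L (w s).1 := fun s => (g3 (w s).1 (w s).2 (hw.2 s).1 L).2
    have h3 : δ * n < ∑ s ∈ Finset.range n,
        ∫ y, (xi ch W (w s) y - tru L (xi ch W (w s) y)) ^ 2 ∂(sgc ρ ch (w s)) := h
    simp only [h2] at h3
    exact h3
  obtain ⟨f1, f2⟩ := hFCLT (List Λ × Bool) (sgc ρ ch) ([], true) (xi ch W) cL σ2 g1 g2 hR.sig.le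
    hR.lim a1 a2
  have hcmp := compar hUPB hLOV hINT hLUMP hHEI hDET hR f2
  have hm1 : ∀ k, Measurable (fun w : ℕ → List Λ × Bool => ((w k).1.length : ℝ)) := fun k =>
    (measurable_from_top (f := fun v : List Λ => (v.length : ℝ))).comp
      (measurable_fst.comp (measurable_pi_apply k))
  have hm2 : ∀ k, Measurable (fun w : ℕ → List Λ × Bool => S (xi ch W) k w) := fun k =>
    (dep_S (xi ch W) (le_refl k)).measurable
  have hfin := hCONV (ℕ → List Λ × Bool) (P (sgc ρ ch) ([], true))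
    (fun k w => ((w k).1.length : ℝ)) (fun k w => S (xi ch W) k w) σ2 η hR.sig hR.eta hm1 hm2
    (fun w => rfl) f1 f2 hcmp Ω' P' B hB F hF hb
  refine hfin.congr fun n => ?_
  rw [← hLUMP Λ ρ ch [] true, integral_map measurable_fst_path.aemeasurable]
  refine Measurable.aestronglyMeasurable ?_
  have h1 : Measurable (fun (w : ℕ → List Λ) (k : ℕ) => ((w k).length : ℝ) / (√σ2 / η * √n)) :=
    measurable_pi_lambda _ fun k => ((measurable_from_top (f := fun v : List Λ =>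
      (v.length : ℝ))).comp (measurable_pi_apply k)).div_const _
  exact (meas_stepD hF n).comp h1

end

end Pool.Agent.H979.GW
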