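import Mathlib

set_option autoImplicit false
set_option linter.unusedSectionVars false
set_option linter.unusedVariables false

open MeasureTheory ProbabilityTheory Filter Topology Set
open scoped ENNReal NNReal

/-!
# Multitype Galton-Watson trees and the critically biased walk: definitions

A vertex of the tree is a list of labels; the head of the list is the label of the vertex among the
children of its parent, the tail of the list is the parent, `[]` is the root.
-/

namespace Pool.Agent.H979.GW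

section tree

variable {Λ : Type} [DecidableEq Λ]

/-- the vertices of generation `k` of the tree with children sets `ch` -/
def Lev (ch : List Λ → Finset Λ) : ℕ → Finset (List Λ)
  | 0 => {[]}
  | k + 1 => (Lev ch k).biUnion fun v => (ch v).image fun c => c :: v

/-- the vertex `v` belongs to the tree -/
def InT (ch : List Λ → Finset Λ) : List Λ → Prop
  | [] => True
  | c :: v => InT ch v ∧ c ∈ ch v

/-- the sum of `W` over the ancestors of `v` (with `v`, without the root) -/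
def Sf (W : List Λ → ℝ) : List Λ → ℝ
  | [] => 0
  | c :: v => W (c :: v) + Sf W v

theorem mem_Lev {ch : List Λ → Finset Λ} {k : ℕ} {v : List Λ} :
    v ∈ Lev ch k ↔ v.length = k ∧ InT ch v := by
  induction k generalizing v with
  | zero =>
    simp only [Lev, Finset.mem_singleton, List.length_eq_zero_iff]
    constructor
    · rintro rfl; exact ⟨rfl, trivial⟩
    · exact fun h => h.1
  | succ k ih =>
    simp only [Lev, Finset.mem_biUnion, Finset.mem_image]
    constructor
    · rintro ⟨u, hu, c, hc, rfl⟩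
      have := ih.1 hu
      exact ⟨by simp [this.1], this.2, hc⟩
    · rintro ⟨h1, h2⟩
      cases v with
      | nil => simp at h1
      | cons c u =>
        exact ⟨u, ih.2 ⟨by simpa using h1, h2.1⟩, c, h2.2, rfl⟩

theorem sum_Lev_zero (ch : List Λ → Finset Λ) (f : List Λ → ℝ) : ∑ v ∈ Lev ch 0, f v = f [] := by
  simp [Lev]

theorem sum_Lev_succ (ch : List Λ → Finset Λ) (k : ℕ) (f : List Λ → ℝ) :
    ∑ v ∈ Lev ch (k + 1), f v = ∑ v ∈ Lev ch k, ∑ c ∈ ch v, f (c :: v) := by
  show ∑ v ∈ (Lev ch k).biUnion (fun v => (ch v).image fun c => c :: v), f v = _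
  rw [Finset.sum_biUnion]
  · refine Finset.sum_congr rfl fun v _ => ?_
    rw [Finset.sum_image]
    intro a _ b _ h
    exact (List.cons.inj h).1
  · intro u _ v _ huv
    simp only [Function.onFun]
    rw [Finset.disjoint_left]
    intro x hx hy
    simp only [Finset.mem_image] at hx hy
    obtain ⟨c, _, rfl⟩ := hx
    obtain ⟨c', _, h⟩ := hy
    exact huv (List.cons.inj h).2.symm

/-- truncation -/
noncomputable def tru (L x : ℝ) : ℝ := max (-L) (min L x)

/-- the transition operator of the `ρ`-biased walk on the tree `ch` -/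
noncomputable def Pop (ρ : ℝ) (ch : List Λ → Finset Λ) (f : List Λ → ℝ) : List Λ → ℝ
  | [] => (∑ c ∈ ch [], f [c]) / (ch []).card
  | c :: v => (ρ * f v + ∑ b ∈ ch (c :: v), f (b :: c :: v)) / (ρ + (ch (c :: v)).card)

/-- the variance of the truncated increment of the signed `S` from the vertex `v` -/
noncomputable def VL (ρ : ℝ) (ch : List Λ → Finset Λ) (W : List Λ → ℝ) (L : ℝ) : List Λ → ℝ
  | [] => (∑ c ∈ ch [], tru L (W [c]) ^ 2) / (ch []).card
  | a :: v => (∑ c ∈ ch (a :: v), tru L (W (c :: a :: v)) ^ 2 + ρ * tru L (W (a :: v)) ^ 2) /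
      (ρ + (ch (a :: v)).card) -
    ((∑ c ∈ ch (a :: v), tru L (W (c :: a :: v)) - ρ * tru L (W (a :: v))) /
      (ρ + (ch (a :: v)).card)) ^ 2

/-- the second moment of the rest of the increment of the signed `S` from the vertex `v` -/
noncomputable def VR (ρ : ℝ) (ch : List Λ → Finset Λ) (W : List Λ → ℝ) (L : ℝ) : List Λ → ℝ
  | [] => (∑ c ∈ ch [], (W [c] - tru L (W [c])) ^ 2) / (ch []).card
  | a :: v => (∑ c ∈ ch (a :: v), (W (c :: a :: v) - tru L (W (c :: a :: v))) ^ 2 +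
      ρ * (W (a :: v) - tru L (W (a :: v))) ^ 2) / (ρ + (ch (a :: v)).card)

/-- `g` has the average `c` on the tree, in the sense that the approximate Poisson equations have
solutions with gradients `Γ` bounded in mean square -/
def Pois (ρ : ℝ) (ch : List Λ → Finset Λ) (g : List Λ → ℝ) (c : ℝ) : Prop :=
  ∃ (C : ℝ) (F : List Λ → ℝ), (∀ k, ∑ v ∈ Lev ch k, (ρ⁻¹) ^ k * F v ^ 2 ≤ C) ∧
    ∀ H : ℕ, ∃ Γ : List Λ → ℝ, (∀ v, H < v.length → Γ v = 0) ∧
      (∀ v, InT ch v → |Γ v| ≤ F v) ∧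
      ∀ v, InT ch v → v ≠ [] → v.length ≤ H →
        Γ v = (ρ + (ch v).card) * (g v - c) + ρ⁻¹ * ∑ b ∈ ch v, Γ (b :: v)

/-- the vertex `v` sees an ancestor at distance at least `x` from which `S` grew too slowly -/
def Bad (ρ : ℝ) (W : List Λ → ℝ) (η ε x : ℝ) (v : List Λ) : Prop :=
  ∃ i : ℕ, i ≤ v.length ∧ x ≤ i ∧
    (ρ - 1) * (Sf W v - Sf W (v.drop i)) - ρ * W v + ρ * W (v.drop i) < ((ρ - 1) * η - ε) * i

open Classical in
/-- the properties of the tree and of the harmonic function which are needed for the limit theorem;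
`W v` is the limit of `ρ ^ (-k)` times the number of descendants of `v` in generation `k` -/
structure Reg (ρ : ℝ) (ch : List Λ → Finset Λ) (W : List Λ → ℝ) (cL : ℕ → ℝ) (σ2 η : ℝ) : Prop where
  rho : 1 < ρ
  eta : 0 < η
  sig : 0 < σ2
  W_nonneg : ∀ v, InT ch v → 0 ≤ W v
  W_rec : ∀ v, InT ch v → ρ * W v = ∑ c ∈ ch v, W (c :: v)
  W_root : 0 < W []
  deg : ∃ C, ∀ k, ∑ v ∈ Lev ch k, (ρ⁻¹) ^ k * (ρ + (ch v).card) ≤ C
  sq : ∃ C, ∀ k, ∑ v ∈ Lev ch k, (ρ⁻¹) ^ k * W v ^ 2 ≤ C
  ui : ∀ ε : ℝ, 0 < ε → ∃ M : ℝ, ∃ k₀ : ℕ, ∀ k ≥ k₀,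
    ∑ v ∈ Lev ch k, (ρ⁻¹) ^ k * (if M < W v then W v ^ 2 else 0) ≤ ε
  lim : Tendsto cL atTop (𝓝 σ2)
  pois : ∀ L : ℕ, Pois ρ ch (VL ρ ch W L) (cL L)
  low : ∀ ε : ℝ, 0 < ε → ∀ A : ℕ, Tendsto (fun H : ℕ => (H : ℝ) ^ 2 *
    ∑ k ∈ Finset.range (A * H + 1), ∑ v ∈ Lev ch k, (ρ⁻¹) ^ k * (ρ + (ch v).card) *
      (if Bad ρ W η ε (ε * H) v then 1 else 0)) atTop (𝓝 0)
  upp : Tendsto (fun k : ℕ => ((k : ℝ))⁻¹ * ∑ v ∈ Lev ch k, (ρ⁻¹) ^ k * (ρ + (ch v).card) *
    max 0 (Sf W v - η * k)) atTop (𝓝 0)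

end tree

section gw

variable {Q : Type} [Fintype Q] [DecidableEq Q]

/-- the vertices: a label is a type and an index -/
abbrev Vx (Q : Type) : Type := List (Q × ℕ)

/-- the environments: `ω v b` is the number of the children of type `b` of the vertex `v` -/
abbrev Env (Q : Type) : Type := Vx Q → Q → ℕ

/-- the type of the vertex `v` when the root has the type `a` -/
def ty (a : Q) : Vx Q → Q
  | [] => a
  | c :: _ => c.1

/-- the environment seen from the vertex `v` (the subtree above `v`) -/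
def sh (v : Vx Q) (ω : Env Q) : Env Q := fun u => ω (u ++ v)

/-- the labels of the children for the offspring configuration `x` -/
def chd (x : Q → ℕ) : Finset (Q × ℕ) :=
  Finset.univ.biUnion fun b => (Finset.range (x b)).image fun i => (b, i)

/-- the children sets of the tree of the environment `ω` -/
def cht (ω : Env Q) (v : Vx Q) : Finset (Q × ℕ) := chd (ω v)

/-- sum over the children of the root of a function of the type and of the subtree -/
def TT (f : Q → Env Q → ℝ) (a : Q) (ω : Env Q) : ℝ := ∑ c ∈ chd (ω []), f c.1 (sh [c] ω)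

/-- the law of the multitype Galton-Watson environment with root of type `a` -/
noncomputable def law (q : Q → Measure (Q → ℕ)) (a : Q) : Measure (Env Q) :=
  Measure.infinitePi (fun v : Vx Q => q (ty a v))

/-- the mean matrix -/
noncomputable def mA (q : Q → Measure (Q → ℕ)) : Matrix Q Q ℝ := fun a b => ∫ x, (x b : ℝ) ∂(q a)

theorem sum_chd (x : Q → ℕ) (f : Q × ℕ → ℝ) :
    ∑ c ∈ chd x, f c = ∑ b, ∑ i ∈ Finset.range (x b), f (b, i) := by
  unfold chd
  rw [Finset.sum_biUnion]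
  · refine Finset.sum_congr rfl fun b _ => ?_
    rw [Finset.sum_image]
    intro i _ j _ h
    exact (Prod.mk.inj h).2
  · intro b _ b' _ hb
    simp only [Function.onFun]
    rw [Finset.disjoint_left]
    intro x hx hy
    simp only [Finset.mem_image] at hx hy
    obtain ⟨i, _, rfl⟩ := hx
    obtain ⟨j, _, h⟩ := hy
    exact hb (Prod.mk.inj h).1.symm

theorem mem_chd (x : Q → ℕ) (c : Q × ℕ) : c ∈ chd x ↔ c.2 < x c.1 := by
  simp only [chd, Finset.mem_biUnion, Finset.mem_univ, true_and, Finset.mem_image,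
    Finset.mem_range]
  constructor
  · rintro ⟨b, i, h, rfl⟩; exact h
  · intro h; exact ⟨c.1, c.2, h, rfl⟩

theorem card_chd (x : Q → ℕ) : (chd x).card = ∑ b, x b := by
  have h := sum_chd x (fun _ => 1)
  simp only [Finset.sum_const, Finset.card_range, nsmul_eq_mul, mul_one] at h
  exact_mod_cast h

instance (q : Q → Measure (Q → ℕ)) [∀ a, IsProbabilityMeasure (q a)] (a : Q) :
    IsProbabilityMeasure (law q a) := by
  unfold law; infer_instance

/-- Perron-Frobenius data of a nonnegative matrix: the eigenvalue `ρ`, the right and left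
eigenvectors `e` and `m`, and the geometric convergence of the powers -/
structure PF (A : Matrix Q Q ℝ) (ρ : ℝ) (e m : Q → ℝ) (C r : ℝ) : Prop where
  e_pos : ∀ a, 0 < e a
  m_pos : ∀ a, 0 < m a
  m_e : ∑ b, m b * e b = 1
  right : ∀ a, ∑ b, A a b * e b = ρ * e a
  left : ∀ b, ∑ a, m a * A a b = ρ * m b
  C_nonneg : 0 ≤ C
  r_nonneg : 0 ≤ r
  r_lt : r < 1
  conv : ∀ (ψ : Q → ℝ) (M : ℝ), (∀ b, |ψ b| ≤ M) → ∀ (j : ℕ) (a : Q),
    |(ρ⁻¹) ^ j * (A ^ j).mulVec ψ a - (∑ b, m b * ψ b) * e a| ≤ C * r ^ j * M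

/-- the standing hypotheses on the offspring laws -/
structure Hyp (q : Q → Measure (Q → ℕ)) (ρ : ℝ) (e m : Q → ℝ) (C r : ℝ) : Prop where
  mom : ∀ a b, Integrable (fun x : Q → ℕ => (x b : ℝ) ^ 2) (q a)
  rho : 1 < ρ
  pf : PF (mA q) ρ e m C r

/-- the martingale `W_k` -/
noncomputable def Wk (ρ : ℝ) (e : Q → ℝ) (k : ℕ) (a : Q) (ω : Env Q) : ℝ :=
  (ρ⁻¹) ^ k * (TT^[k] (fun b _ => e b)) a ω

/-- its limit -/
noncomputable def WW (ρ : ℝ) (e : Q → ℝ) (a : Q) (ω : Env Q) : ℝ :=
  (limsup (fun k => ENNReal.ofReal (Wk ρ e k a ω)) atTop).toReal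

/-- the limit for the subtree above `v` -/
noncomputable def Wv (ρ : ℝ) (e : Q → ℝ) (a : Q) (ω : Env Q) (v : Vx Q) : ℝ :=
  WW ρ e (ty a v) (sh v ω)

end gw

/-- a sequence of integrable functions with summable `L¹` norms tends to `0` a.e. -/
theorem ae_tendsto_zero {Ω : Type*} [MeasurableSpace Ω] {μ : Measure Ω} {X : ℕ → Ω → ℝ≥0∞}
    (hX : ∀ k, AEMeasurable (X k) μ) (h : ∑' k, ∫⁻ ω, X k ω ∂μ ≠ ∞) :
    ∀ᵐ ω ∂μ, Tendsto (fun k => X k ω) atTop (𝓝 0) := by
  rw [← lintegral_tsum hX] at h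
  filter_upwards [ae_lt_top' (AEMeasurable.tsum hX) h] with ω hω
  exact ENNReal.tendsto_atTop_zero_of_tsum_ne_top hω.ne

/-- a sequence of integrable real functions with summable `L¹` norms tends to `0` a.e. -/
theorem ae_tendsto_zero_real {Ω : Type*} [MeasurableSpace Ω] {μ : Measure Ω} {X : ℕ → Ω → ℝ}
    (hX : ∀ k, Integrable (X k) μ) (h : Summable fun k => ∫ ω, |X k ω| ∂μ) :
    ∀ᵐ ω ∂μ, Tendsto (fun k => X k ω) atTop (𝓝 0) := by
  have h1 : ∀ᵐ ω ∂μ, Tendsto (fun k => ENNReal.ofReal |X k ω|) atTop (𝓝 0) := by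
    refine ae_tendsto_zero (fun k => (hX k).abs.aemeasurable.ennreal_ofReal) ?_
    have h2 : ∀ k, ∫⁻ ω, ENNReal.ofReal |X k ω| ∂μ = ENNReal.ofReal (∫ ω, |X k ω| ∂μ) := fun k => by
      rw [ofReal_integral_eq_lintegral_ofReal (hX k).abs (Eventually.of_forall fun _ => abs_nonneg _)]
    simp_rw [h2]
    exact h.tsum_ofReal_ne_top
  filter_upwards [h1] with ω hω
  have h3 := (ENNReal.tendsto_toReal ENNReal.zero_ne_top).comp hω
  simp only [Function.comp_def, ENNReal.toReal_zero] at h3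
  have h4 : ∀ k, (ENNReal.ofReal |X k ω|).toReal = |X k ω| := fun k =>
    ENNReal.toReal_ofReal (abs_nonneg _)
  simp only [h4] at h3
  exact tendsto_zero_iff_abs_tendsto_zero _ |>.2 h3

end Pool.Agent.H979.GW
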