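import Pool.Agent.H979.GW.Law
import Pool.Agent.H979.GW.AsmA

set_option autoImplicit false
set_option linter.unusedSectionVars false
set_option linter.unusedVariables false

open MeasureTheory ProbabilityTheory Filter Topology Set
open scoped ENNReal NNReal

/-!
# The quenched invariance principle for the critically biased walk
-/

namespace Pool.Agent.H979.GW

open Pool.Agent.H979.QIP (P K V bm S P_zero)

variable {Q : Type} [Fintype Q] [DecidableEq Q]

/-- second moments from a moment of order `p ≥ 2` -/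
theorem mom_of {q : Q → Measure (Q → ℕ)} [∀ a, IsProbabilityMeasure (q a)] {p : ℝ} (hp : 2 ≤ p)
    (h : ∀ a, ∫⁻ x, ((∑ b, x b : ℕ) : ℝ≥0∞) ^ p ∂(q a) < ∞) (a b : Q) :
    Integrable (fun x : Q → ℕ => (x b : ℝ) ^ 2) (q a) := by
  refine ⟨(measurable_of_countable _).aestronglyMeasurable, ?_⟩
  rw [hasFiniteIntegral_iff_norm]
  refine lt_of_le_of_lt (lintegral_mono fun x => ?_)
    (show ∫⁻ x, (1 + ((∑ b, x b : ℕ) : ℝ≥0∞) ^ p) ∂(q a) < ∞ from ?_)
  · rw [Real.norm_eq_abs, abs_of_nonneg (by positivity), ENNReal.ofReal_pow (Nat.cast_nonneg _),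
      ENNReal.ofReal_natCast]
    have h1 : (x b : ℝ≥0∞) ≤ ((∑ b, x b : ℕ) : ℝ≥0∞) := by
      exact_mod_cast Finset.single_le_sum (f := fun b => x b) (fun _ _ => Nat.zero_le _)
        (Finset.mem_univ b)
    by_cases h0 : (∑ b, x b : ℕ) = 0
    · rw [h0] at h1
      have : (x b : ℝ≥0∞) = 0 := le_antisymm (by simpa using h1) zero_le
      rw [this]
      simp
    · have h2 : (1 : ℝ≥0∞) ≤ ((∑ b, x b : ℕ) : ℝ≥0∞) := by
        exact_mod_cast Nat.one_le_iff_ne_zero.2 h0
      calc (x b : ℝ≥0∞) ^ 2 ≤ ((∑ b, x b : ℕ) : ℝ≥0∞) ^ 2 := pow_le_pow_left₀ zero_le h1 2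
        _ = ((∑ b, x b : ℕ) : ℝ≥0∞) ^ (2 : ℝ) := by
            rw [← ENNReal.rpow_natCast]; norm_num
        _ ≤ ((∑ b, x b : ℕ) : ℝ≥0∞) ^ p := ENNReal.rpow_le_rpow_of_exponent_le h2 hp
        _ ≤ _ := le_add_self
  · rw [lintegral_add_left measurable_const]
    simp only [lintegral_const, measure_univ, mul_one]
    exact ENNReal.add_lt_top.2 ⟨ENNReal.one_lt_top, h a⟩

end Pool.Agent.H979.GW
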