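import Pool.Agent.H979.GW.AsmC

set_option autoImplicit false
set_option linter.unusedSectionVars false
set_option linter.unusedVariables false

open MeasureTheory ProbabilityTheory Filter Topology Set
open scoped ENNReal NNReal

/-!
# The law of a walk given by its cylinder probabilities
-/

namespace Pool.Agent.H979.GW

open Pool.Agent.H979.QIP (P K V bm S P_zero Dep res ext res_preimage measurable_res ext_res
  P_cyl wt)

theorem law_unique {X : Type*} [Countable X] [MeasurableSpace X] [MeasurableSingletonClass X]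
    {μ ν : Measure (ℕ → X)} [IsProbabilityMeasure μ] [IsProbabilityMeasure ν]
    (h : ∀ (n : ℕ) (x : ℕ → X), μ {w | ∀ k ≤ n, w k = x k} = ν {w | ∀ k ≤ n, w k = x k}) :
    μ = ν := by
  have h1 : ∀ N : ℕ, μ.map (res N) = ν.map (res N) := by
    intro N
    refine Measure.ext_of_singleton fun p => ?_
    rw [Measure.map_apply (measurable_res N) (measurableSet_singleton p),
      Measure.map_apply (measurable_res N) (measurableSet_singleton p), res_preimage]
    exact h N (ext p)
  refine ext_of_generate_finite (measurableCylinders fun _ : ℕ => X)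
    generateFrom_measurableCylinders.symm isPiSystem_measurableCylinders ?_ (by simp)
  intro t ht
  rw [mem_measurableCylinders] at ht
  obtain ⟨s, A, hA, rfl⟩ := ht
  obtain ⟨N, hN⟩ := s.exists_nat_subset_range
  have h2 : cylinder s A = res N ⁻¹' {p : Fin (N + 1) → X | ext p ∈ cylinder s A} := by
    ext w
    simp only [mem_cylinder, mem_preimage, mem_setOf_eq]
    have : (s.restrict w : ∀ i : s, X) = s.restrict (ext (res N w)) := by
      funext i
      have hi := Finset.mem_range.1 (hN i.2)
      simp only [Finset.restrict]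
      rw [ext_res w (by omega)]
    rw [this]
  have h3 : MeasurableSet {p : Fin (N + 1) → X | ext p ∈ cylinder s A} := (Set.to_countable _).measurableSet
  rw [h2, ← Measure.map_apply (measurable_res N) h3, ← Measure.map_apply (measurable_res N) h3, h1]

variable {Q : Type} [Fintype Q] [DecidableEq Q]

open Classical in
/-- the transition probabilities of the `ρ`-biased walk on the tree of the environment `ω` -/
noncomputable def trp (ρ : ℝ) (ω : Env Q) : Vx Q → Vx Q → ℝ≥0∞
  | [], w => if ∃ c ∈ cht ω [], w = [c] then ENNReal.ofReal (1 / (cht ω []).card) else 0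
  | a :: u, w => if w = u then ENNReal.ofReal (ρ / (ρ + (cht ω (a :: u)).card))
      else if ∃ c ∈ cht ω (a :: u), w = c :: a :: u then
        ENNReal.ofReal (1 / (ρ + (cht ω (a :: u)).card)) else 0

/-- `X` is the `ρ`-biased walk on the tree of the environment `ω`, started at the root: its finite
paths have the probabilities of this Markov chain -/
def IsWalk (ρ : ℝ) (ω : Env Q) {Ξ : Type} [MeasurableSpace Ξ] (Pw : Measure Ξ)
    (X : ℕ → Ξ → Vx Q) : Prop :=
  (∀ k, Measurable (X k)) ∧ ∀ (m : ℕ) (x : ℕ → Vx Q),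
    Pw {ξ | ∀ k ≤ m, X k ξ = x k} =
      (if x 0 = [] then 1 else 0) * ∏ k ∈ Finset.range m, trp ρ ω (x k) (x (k + 1))

theorem stp_trp (ρ : ℝ) [hf : Fact (1 < ρ)] {ω : Env Q} (h : (cht ω []).card ≠ 0) (v w : Vx Q) :
    stp ρ (cht ω) v {w} = trp ρ ω v w := by
  classical
  have h0 : ∀ f : List (Q × ℕ) → ℝ≥0∞, f = ({w} : Set (Vx Q)).indicator 1 → stp ρ (cht ω) v {w} =
      ∫⁻ x, f x ∂(stp ρ (cht ω) v) := by
    intro f hf
    rw [hf, lintegral_indicator_one (by trivial)]
  rw [h0 _ rfl]
  cases v with
  | nil =>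
    rw [lintegral_stp_nil ρ h]
    show _ = if ∃ c ∈ cht ω [], w = [c] then ENNReal.ofReal (1 / (cht ω []).card) else 0
    split_ifs with hc
    · obtain ⟨c, hc, rfl⟩ := hc
      rw [Finset.sum_eq_single_of_mem c hc]
      · simp
      · intro b _ hb
        simp [hb]
    · refine Finset.sum_eq_zero fun c hc' => ?_
      have : ([c] : Vx Q) ∉ ({w} : Set (Vx Q)) := fun h1 => hc ⟨c, hc', (mem_singleton_iff.1 h1).symm⟩
      rw [indicator_of_notMem this, mul_zero]
  | cons a u =>
    rw [lintegral_stp_cons ρ]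
    show _ = if w = u then ENNReal.ofReal (ρ / (ρ + (cht ω (a :: u)).card))
      else if ∃ c ∈ cht ω (a :: u), w = c :: a :: u then
        ENNReal.ofReal (1 / (ρ + (cht ω (a :: u)).card)) else 0
    split_ifs with h1 hc
    · subst h1
      rw [indicator_of_mem (mem_singleton _), Pi.one_apply, mul_one]
      rw [Finset.sum_eq_zero, add_zero]
      intro c _
      have : (c :: a :: w : Vx Q) ∉ ({w} : Set (Vx Q)) := fun h1 => by
        have := congrArg List.length (mem_singleton_iff.1 h1)
        simp only [List.length_cons] at this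
        omega
      rw [indicator_of_notMem this, mul_zero]
    · obtain ⟨c, hc, rfl⟩ := hc
      have h2 : u ∉ ({c :: a :: u} : Set (Vx Q)) := fun h3 => h1 (mem_singleton_iff.1 h3).symm
      rw [indicator_of_notMem h2, mul_zero, zero_add, Finset.sum_eq_single_of_mem c hc]
      · simp
      · intro b _ hb
        simp [hb]
    · have h2 : u ∉ ({w} : Set (Vx Q)) := fun h3 => h1 (mem_singleton_iff.1 h3).symm
      rw [indicator_of_notMem h2, mul_zero, zero_add]
      refine Finset.sum_eq_zero fun c hc' => ?_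
      have : (c :: a :: u : Vx Q) ∉ ({w} : Set (Vx Q)) := fun h1 =>
        hc ⟨c, hc', (mem_singleton_iff.1 h1).symm⟩
      rw [indicator_of_notMem this, mul_zero]

theorem P_cyl' (ρ : ℝ) [hf : Fact (1 < ρ)] {ω : Env Q} (h : (cht ω []).card ≠ 0) (m : ℕ)
    (x : ℕ → Vx Q) : P (stp ρ (cht ω)) [] {w | ∀ k ≤ m, w k = x k} =
      (if x 0 = [] then 1 else 0) * ∏ k ∈ Finset.range m, trp ρ ω (x k) (x (k + 1)) := by
  rw [P_cyl]
  have h1 : wt (stp ρ (cht ω)) m x = ∏ k ∈ Finset.range m, trp ρ ω (x k) (x (k + 1)) := by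
    unfold wt
    exact Finset.prod_congr rfl fun k _ => stp_trp ρ h _ _
  rw [h1]
  split_ifs <;> simp

/-- the walk exists -/
theorem exists_walk (ρ : ℝ) [hf : Fact (1 < ρ)] {ω : Env Q} (h : (cht ω []).card ≠ 0) :
    IsWalk ρ ω (P (stp ρ (cht ω)) []) (fun k w => w k) :=
  ⟨fun k => measurable_pi_apply k, fun m x => P_cyl' ρ h m x⟩

/-- the law of the path of a walk -/
theorem IsWalk.law {ρ : ℝ} [hf : Fact (1 < ρ)] {ω : Env Q} (h : (cht ω []).card ≠ 0) {Ξ : Type}
    [MeasurableSpace Ξ] {Pw : Measure Ξ} [IsProbabilityMeasure Pw] {X : ℕ → Ξ → Vx Q}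
    (hX : IsWalk ρ ω Pw X) : Pw.map (fun ξ k => X k ξ) = P (stp ρ (cht ω)) [] := by
  have hm : Measurable (fun ξ k => X k ξ) := measurable_pi_lambda _ hX.1
  have : IsProbabilityMeasure (Pw.map (fun ξ k => X k ξ)) :=
    Measure.isProbabilityMeasure_map hm.aemeasurable
  refine law_unique fun n x => ?_
  rw [P_cyl' ρ h]
  have hms : MeasurableSet {w : ℕ → Vx Q | ∀ k ≤ n, w k = x k} := by
    have : {w : ℕ → Vx Q | ∀ k ≤ n, w k = x k} = ⋂ k ∈ Finset.range (n + 1), {w | w k = x k} := by
      ext w
      simp only [mem_setOf_eq, mem_iInter, Finset.mem_range]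
      exact ⟨fun h k hk => h k (by omega), fun h k hk => h k (by omega)⟩
    rw [this]
    exact Finset.measurableSet_biInter _ fun k _ =>
      measurableSet_eq_fun (measurable_pi_apply k) measurable_const
  rw [Measure.map_apply hm hms]
  exact hX.2 n x

end Pool.Agent.H979.GW
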