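import Pool.Agent.H979.GW.StmB

/-!
# Critically biased walks on trees: the truncated remainder (S_REM)
-/

set_option autoImplicit false

open MeasureTheory ProbabilityTheory Filter Topology Set
open scoped ENNReal NNReal

namespace Pool.Agent.H979.GW

open Pool.Agent.H979.QIP (P)

theorem rem_tru {L x : ℝ} (hL : 0 ≤ L) (hx : 0 ≤ x) :
    (x - tru L x) ^ 2 ≤ if L < x then x ^ 2 else 0 := by
  unfold tru
  split_ifs with h
  · rw [min_eq_left h.le, max_eq_right (by linarith)]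
    have : 0 ≤ x - L := by linarith
    nlinarith
  · rw [min_eq_right (not_lt.1 h), max_eq_right (by linarith)]
    simp

theorem rem_avg {U : ℕ → ℝ} {B e : ℝ} {k₀ : ℕ} (he : 0 ≤ e) (hB : 0 ≤ B) (h1 : ∀ k, U k ≤ B)
    (h2 : ∀ k ≥ k₀, U k ≤ e) {x : ℝ} (hx : 0 ≤ x) (n : ℕ) :
    ∑ k ∈ (Finset.range n).filter (fun k : ℕ => (k : ℝ) ≤ x), U k ≤ k₀ * B + (x + 1) * e := by
  set F := (Finset.range n).filter (fun k : ℕ => (k : ℝ) ≤ x) with hF
  have hFc : ((F.card : ℕ) : ℝ) ≤ x + 1 := by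
    have h1 : F ⊆ Finset.range (⌊x⌋₊ + 1) := by
      intro k hk
      rw [hF, Finset.mem_filter] at hk
      rw [Finset.mem_range, Nat.lt_succ_iff]
      exact Nat.le_floor hk.2
    have h2 := Finset.card_le_card h1
    rw [Finset.card_range] at h2
    have h3 : ((F.card : ℕ) : ℝ) ≤ ((⌊x⌋₊ + 1 : ℕ) : ℝ) := by exact_mod_cast h2
    push_cast at h3
    have h4 := Nat.floor_le hx
    linarith
  calc ∑ k ∈ F, U k ≤ ∑ k ∈ F, ((if k < k₀ then B else 0) + e) := by
        refine Finset.sum_le_sum fun k _ => ?_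
        split_ifs with hc
        · linarith [h1 k]
        · linarith [h2 k (not_lt.1 hc)]
    _ = (∑ k ∈ F, (if k < k₀ then B else 0)) + F.card * e := by
        rw [Finset.sum_add_distrib, Finset.sum_const, nsmul_eq_mul]
    _ ≤ k₀ * B + (x + 1) * e := by
        refine add_le_add ?_ (mul_le_mul_of_nonneg_right hFc he)
        rw [← Finset.sum_filter, Finset.sum_const, nsmul_eq_mul]
        refine mul_le_mul_of_nonneg_right ?_ hB
        have h5 : F.filter (fun k => k < k₀) ⊆ Finset.range k₀ := fun k hk =>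
          Finset.mem_range.2 (Finset.mem_filter.1 hk).2
        have h6 := Finset.card_le_card h5
        rw [Finset.card_range] at h6
        exact_mod_cast h6

theorem VR_nonneg {Λ : Type} [DecidableEq Λ] {ρ : ℝ} (hρ : 0 < ρ) (ch : List Λ → Finset Λ)
    (W : List Λ → ℝ) (L : ℝ) (v : List Λ) : 0 ≤ VR ρ ch W L v := by
  cases v with
  | nil => unfold VR; positivity
  | cons a u => unfold VR; positivity

theorem rem_level {Λ : Type} [DecidableEq Λ] {ρ : ℝ} {ch : List Λ → Finset Λ} {W : List Λ → ℝ}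
    (hρ : 0 < ρ) (hW : ∀ v, InT ch v → 0 ≤ W v) (hroot : (ch []).card ≠ 0)
    {L : ℝ} (hL : 0 ≤ L) (k : ℕ) :
    ∑ v ∈ Lev ch k, (ρ⁻¹) ^ k * (ρ + (ch v).card) * VR ρ ch W L v ≤
      (ρ + 1) * ρ * (∑ v ∈ Lev ch k, (ρ⁻¹) ^ k * (if L < W v then W v ^ 2 else 0)) +
      (ρ + 1) * ρ * (∑ v ∈ Lev ch (k + 1), (ρ⁻¹) ^ (k + 1) * (if L < W v then W v ^ 2 else 0)) := by
  have hnn : ∀ (j : ℕ) (v : List Λ), 0 ≤ (ρ⁻¹) ^ j * (if L < W v then W v ^ 2 else 0) := by
    intro j v
    refine mul_nonneg (by positivity) ?_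
    split_ifs
    · positivity
    · exact le_rfl
  have hs : ∑ v ∈ Lev ch (k + 1), (ρ⁻¹) ^ (k + 1) * (if L < W v then W v ^ 2 else 0) =
      ∑ v ∈ Lev ch k, ∑ c ∈ ch v, (ρ⁻¹) ^ (k + 1) *
        (if L < W (c :: v) then W (c :: v) ^ 2 else 0) := sum_Lev_succ ch k _
  rw [hs, Finset.mul_sum, Finset.mul_sum, ← Finset.sum_add_distrib]
  refine Finset.sum_le_sum fun v hv => ?_
  obtain ⟨hl, hT⟩ := mem_Lev.1 hv
  have hc : ∀ c ∈ ch v, (W (c :: v) - tru L (W (c :: v))) ^ 2 ≤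
      if L < W (c :: v) then W (c :: v) ^ 2 else 0 := fun c hc => rem_tru hL (hW _ ⟨hT, hc⟩)
  have hsum : ∑ c ∈ ch v, (W (c :: v) - tru L (W (c :: v))) ^ 2 ≤
      ∑ c ∈ ch v, (if L < W (c :: v) then W (c :: v) ^ 2 else 0) := Finset.sum_le_sum hc
  have hpow : (ρ⁻¹) ^ k = ρ * (ρ⁻¹) ^ (k + 1) := by
    rw [pow_succ]; field_simp
  have hS0 : 0 ≤ ∑ c ∈ ch v, (if L < W (c :: v) then W (c :: v) ^ 2 else 0) :=
    Finset.sum_nonneg fun c _ => by split_ifs <;> positivity
  rw [← Finset.mul_sum]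
  set Sg := ∑ c ∈ ch v, (if L < W (c :: v) then W (c :: v) ^ 2 else 0) with hSg
  have hp : 0 ≤ (ρ⁻¹) ^ k := by positivity
  have hp1 : 0 ≤ (ρ⁻¹) ^ (k + 1) := by positivity
  have h0 := hnn k v
  have e1 : (ρ + 1) * ρ * ((ρ⁻¹) ^ (k + 1) * Sg) = (ρ + 1) * ((ρ⁻¹) ^ k * Sg) := by
    rw [hpow]; ring
  rw [e1]
  cases v with
  | nil =>
    have hd : (1 : ℝ) ≤ ((ch []).card : ℝ) := by
      have : 1 ≤ (ch []).card := Nat.one_le_iff_ne_zero.2 hroot
      exact_mod_cast this
    have hd0 : (0 : ℝ) < ((ch []).card : ℝ) := by linarith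
    have h1 : (ρ + ((ch []).card : ℝ)) * VR ρ ch W L [] ≤ (ρ + 1) * Sg := by
      unfold VR
      rw [mul_div_assoc', div_le_iff₀ hd0]
      have h2 : (ρ + ((ch []).card : ℝ)) ≤ (ρ + 1) * (ch []).card := by nlinarith
      calc (ρ + ((ch []).card : ℝ)) * ∑ c ∈ ch [], (W [c] - tru L (W [c])) ^ 2
          ≤ ((ρ + 1) * (ch []).card) * Sg := by
            refine mul_le_mul h2 hsum (Finset.sum_nonneg fun c _ => sq_nonneg _) (by positivity)
        _ = (ρ + 1) * Sg * (ch []).card := by ring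
    have h3 := mul_le_mul_of_nonneg_left h1 hp
    have h4 : 0 ≤ (ρ + 1) * ρ * ((ρ⁻¹) ^ k * (if L < W [] then W [] ^ 2 else 0)) :=
      mul_nonneg (by positivity) h0
    nlinarith
  | cons a u =>
    have hd0 : (0 : ℝ) < ρ + ((ch (a :: u)).card : ℝ) := by positivity
    have h1 : (ρ + ((ch (a :: u)).card : ℝ)) * VR ρ ch W L (a :: u) ≤
        Sg + ρ * (if L < W (a :: u) then W (a :: u) ^ 2 else 0) := by
      unfold VR
      rw [mul_div_cancel₀ _ hd0.ne']
      exact add_le_add hsum (mul_le_mul_of_nonneg_left (rem_tru hL (hW _ hT)) hρ.le)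
    have h3 := mul_le_mul_of_nonneg_left h1 hp
    have h5 : 0 ≤ (ρ⁻¹) ^ k * Sg := mul_nonneg hp hS0
    nlinarith [mul_nonneg hρ.le h5, mul_nonneg hρ.le (mul_nonneg hρ.le h0)]

theorem gw_rem (hOCC : S_OCC) : S_REM := by
  classical
  intro Λ _ _ ρ hρf ch W cL σ2 η hR A δ η' hA hδ hη'
  obtain ⟨C, hC0, hC⟩ := hOCC Λ ρ ch W cL σ2 η hR
  have hρ : 1 < ρ := hR.rho
  have hρ0 : 0 < ρ := by linarith
  have hcard : (ch []).card ≠ 0 := by
    intro h0
    have h1 := hR.W_rec [] trivial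
    rw [Finset.card_eq_zero] at h0
    rw [h0, Finset.sum_empty] at h1
    have h2 := mul_pos hρ0 hR.W_root
    linarith
  obtain ⟨Cs, hCs⟩ := hR.sq
  set K : ℝ := (ρ + 1) * ρ with hK
  have hK0 : 0 < K := by positivity
  set e : ℝ := η' * δ / (4 * (C + 1) * A * K) with he
  have he0 : 0 < e := by positivity
  obtain ⟨M, k₀, hM⟩ := hR.ui e he0
  refine ⟨⌈M⌉₊, fun L hL => ?_⟩
  have hLM : M ≤ (L : ℝ) := (Nat.le_ceil M).trans (by exact_mod_cast hL)
  have hL0 : (0 : ℝ) ≤ L := Nat.cast_nonneg _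
  set g : ℕ → ℝ := fun k => ∑ v ∈ Lev ch k, (ρ⁻¹) ^ k * (if (L : ℝ) < W v then W v ^ 2 else 0)
    with hg
  have hg1 : ∀ k, g k ≤ Cs := by
    intro k
    refine le_trans (Finset.sum_le_sum fun v _ => ?_) (hCs k)
    refine mul_le_mul_of_nonneg_left ?_ (by positivity)
    split_ifs
    · exact le_rfl
    · positivity
  have hg0 : ∀ k, 0 ≤ g k := fun k => Finset.sum_nonneg fun v _ => by
    refine mul_nonneg (by positivity) ?_
    split_ifs <;> positivity
  have hg2 : ∀ k ≥ k₀, g k ≤ e := by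
    intro k hk
    refine le_trans (Finset.sum_le_sum fun v _ => ?_) (hM k hk)
    refine mul_le_mul_of_nonneg_left ?_ (by positivity)
    split_ifs with h1 h2
    · exact le_rfl
    · exact absurd (lt_of_le_of_lt hLM h1) h2
    · positivity
    · exact le_rfl
  have hCs0 : 0 ≤ Cs := (hg0 0).trans (hg1 0)
  set U : ℕ → ℝ := fun k => ∑ v ∈ Lev ch k, (ρ⁻¹) ^ k * (ρ + (ch v).card) * VR ρ ch W L v
    with hUdef
  have hU1 : ∀ k, U k ≤ 2 * K * Cs := by
    intro k
    have h1 := rem_level hρ0 hR.W_nonneg hcard hL0 k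
    have h2 := mul_le_mul_of_nonneg_left (hg1 k) hK0.le
    have h3 := mul_le_mul_of_nonneg_left (hg1 (k + 1)) hK0.le
    calc U k ≤ K * g k + K * g (k + 1) := h1
      _ ≤ _ := by linarith
  have hU2 : ∀ k ≥ k₀, U k ≤ 2 * K * e := by
    intro k hk
    have h1 := rem_level hρ0 hR.W_nonneg hcard hL0 k
    have h2 := mul_le_mul_of_nonneg_left (hg2 k hk) hK0.le
    have h3 := mul_le_mul_of_nonneg_left (hg2 (k + 1) (by omega)) hK0.le
    calc U k ≤ K * g k + K * g (k + 1) := h1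
      _ ≤ _ := by linarith
  -- the bound for each `n`
  have hbound : ∀ n : ℕ, 1 ≤ n → P (stp ρ ch) [] {w | (∀ s ≤ n, ((w s).length : ℝ) ≤ A * √n) ∧
      δ * n < ∑ s ∈ Finset.range n, VR ρ ch W L (w s)} ≤
      ENNReal.ofReal (C * √n * (k₀ * (2 * K * Cs) + (A * √n + 1) * (2 * K * e)) / (δ * n)) := by
    intro n hn
    have hn1 : (1 : ℝ) ≤ n := by exact_mod_cast hn
    have hn0 : (0 : ℝ) < n := by linarith
    have hsp : 0 < √(n : ℝ) := Real.sqrt_pos.2 hn0
    set f : List Λ → ℝ := fun v => if (v.length : ℝ) ≤ A * √n then VR ρ ch W L v else 0 with hf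
    have hf0 : ∀ v, 0 ≤ f v := fun v => by
      simp only [hf]; split_ifs
      · exact VR_nonneg hρ0 ch W L v
      · exact le_rfl
    have hmeas : ∀ s : ℕ, Measurable (fun w : ℕ → List Λ => ENNReal.ofReal (f (w s))) := fun s =>
      (measurable_from_top (f := fun v : List Λ => ENNReal.ofReal (f v))).comp
        (measurable_pi_apply s)
    have hsub : {w : ℕ → List Λ | (∀ s ≤ n, ((w s).length : ℝ) ≤ A * √n) ∧
        δ * n < ∑ s ∈ Finset.range n, VR ρ ch W L (w s)} ⊆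
        {w | ENNReal.ofReal (δ * n) ≤ ∑ s ∈ Finset.range n, ENNReal.ofReal (f (w s))} := by
      rintro w ⟨h1, h2⟩
      simp only [mem_ofPred_eq]
      rw [← ENNReal.ofReal_sum_of_nonneg fun s _ => hf0 _]
      refine ENNReal.ofReal_le_ofReal ?_
      have h3 : ∑ s ∈ Finset.range n, f (w s) = ∑ s ∈ Finset.range n, VR ρ ch W L (w s) := by
        refine Finset.sum_congr rfl fun s hs => ?_
        have h4 := h1 s (Finset.mem_range.1 hs).le
        simp only [hf]
        rw [if_pos h4]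
      rw [h3]
      exact h2.le
    have hmark : P (stp ρ ch) [] {w | ENNReal.ofReal (δ * n) ≤
        ∑ s ∈ Finset.range n, ENNReal.ofReal (f (w s))} ≤
        (∫⁻ w, ∑ s ∈ Finset.range n, ENNReal.ofReal (f (w s)) ∂(P (stp ρ ch) [])) /
          ENNReal.ofReal (δ * n) := by
      refine meas_ge_le_lintegral_div ?_ ?_ ENNReal.ofReal_ne_top
      · exact (Finset.measurable_fun_sum _ fun s _ => hmeas s).aemeasurable
      · rw [Ne, ENNReal.ofReal_eq_zero, not_le]
        positivity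
    have hint : ∫⁻ w, ∑ s ∈ Finset.range n, ENNReal.ofReal (f (w s)) ∂(P (stp ρ ch) []) =
        ENNReal.ofReal (∑ s ∈ Finset.range n, (Pop ρ ch)^[s] f []) := by
      rw [lintegral_finsetSum _ fun s _ => hmeas s,
        ENNReal.ofReal_sum_of_nonneg fun s _ => Pop_iter_nonneg hρ0 ch hf0 s []]
      exact Finset.sum_congr rfl fun s _ => coord hcard hf0 s []
    have hlev : ∑ k ∈ Finset.range n, ∑ v ∈ Lev ch k, (ρ⁻¹) ^ k * (ρ + (ch v).card) * f v ≤
        ∑ k ∈ (Finset.range n).filter (fun k : ℕ => (k : ℝ) ≤ A * √n), U k := by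
      rw [Finset.sum_filter]
      refine Finset.sum_le_sum fun k _ => ?_
      split_ifs with hk
      · simp only [hUdef]
        refine Finset.sum_le_sum fun v hv => ?_
        have hvl : v.length = k := (mem_Lev.1 hv).1
        refine mul_le_mul_of_nonneg_left ?_ (by positivity)
        simp only [hf]
        rw [if_pos (by rw [hvl]; exact hk)]
      · refine le_of_eq (Finset.sum_eq_zero fun v hv => ?_)
        have hvl : v.length = k := (mem_Lev.1 hv).1
        simp only [hf]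
        rw [if_neg, mul_zero]
        rw [hvl]
        exact hk
    have havg := rem_avg (U := U) (B := 2 * K * Cs) (e := 2 * K * e) (k₀ := k₀) (by positivity)
      (by positivity) hU1 hU2 (x := A * √n) (by positivity) n
    have hfin : (∑ s ∈ Finset.range n, (Pop ρ ch)^[s] f []) / (δ * n) ≤
        C * √n * (k₀ * (2 * K * Cs) + (A * √n + 1) * (2 * K * e)) / (δ * n) := by
      refine div_le_div_of_nonneg_right ?_ (by positivity)
      exact ((hC f hf0).1 n hn).trans
        (mul_le_mul_of_nonneg_left (hlev.trans havg) (by positivity))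
    calc _ ≤ _ := measure_mono hsub
      _ ≤ _ := hmark
      _ = ENNReal.ofReal ((∑ s ∈ Finset.range n, (Pop ρ ch)^[s] f []) / (δ * n)) := by
          rw [hint, ENNReal.ofReal_div_of_pos (by positivity)]
      _ ≤ _ := ENNReal.ofReal_le_ofReal hfin
  have hlim : Tendsto (fun n : ℕ => (C * (k₀ * (2 * K * Cs) + 2 * K * e) / δ) * (1 / √(n : ℝ)) +
      C * A * (2 * K * e) / δ) atTop
      (𝓝 ((C * (k₀ * (2 * K * Cs) + 2 * K * e) / δ) * 0 + C * A * (2 * K * e) / δ)) := by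
    refine Tendsto.add_const _ (Tendsto.const_mul _ ?_)
    have h1 : Tendsto (fun n : ℕ => √(n : ℝ)) atTop atTop :=
      Real.tendsto_sqrt_atTop.comp tendsto_natCast_atTop_atTop
    simp only [one_div]
    exact tendsto_inv_atTop_zero.comp h1
  have hlt : (C * (k₀ * (2 * K * Cs) + 2 * K * e) / δ) * 0 + C * A * (2 * K * e) / δ < η' := by
    have h1 : C * A * (2 * K * e) / δ = η' * (C / (2 * (C + 1))) := by
      rw [he]; field_simp; ring
    rw [h1, mul_zero, zero_add]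
    have h2 : C / (2 * (C + 1)) < 1 := by
      rw [div_lt_one (by positivity)]; linarith
    nlinarith
  filter_upwards [eventually_ge_atTop 1, hlim.eventually_le_const hlt] with n hn hle
  refine (hbound n hn).trans (ENNReal.ofReal_le_ofReal ?_)
  have hn0 : (0 : ℝ) < n := by exact_mod_cast hn
  have hsp : 0 < √(n : ℝ) := Real.sqrt_pos.2 hn0
  have hsq : √(n : ℝ) * √(n : ℝ) = n := Real.mul_self_sqrt hn0.le
  refine le_trans (le_of_eq ?_) hle
  have e2 : C * √(n : ℝ) * (k₀ * (2 * K * Cs) + (A * √(n : ℝ) + 1) * (2 * K * e)) / (δ * n) =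
      C * √(n : ℝ) * (k₀ * (2 * K * Cs) + (A * √(n : ℝ) + 1) * (2 * K * e)) /
        (δ * (√(n : ℝ) * √(n : ℝ))) := by rw [hsq]
  rw [e2]
  field_simp
  ring

end Pool.Agent.H979.GW
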