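import Pool.Agent.H979.GW.Final
import Pool.Agent.H979.GW.Rem
import Pool.Agent.H100.GWLOV
import Pool.Agent.H161.GWPOS
import Pool.Agent.H195.GWTAIL
import Pool.Agent.H215.GWPF
import Pool.Agent.H251.GWINT
import Pool.Agent.H27.GWQV
import Pool.Agent.H284.GWLUMP
import Pool.Agent.H286.GWLOW
import Pool.Agent.H286.GWMZ
import Pool.Agent.H289.GWLLN
import Pool.Agent.H385.GWDEC
import Pool.Agent.H548.GWM1
import Pool.Agent.H551.GWCL
import Pool.Agent.H591.GWKEY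
import Pool.Agent.H603.GWLEV
import Pool.Agent.H603.GWOCC
import Pool.Agent.H662.GWGREEN
import Pool.Agent.H870.GWSH
import Pool.Agent.H921.GWSGN
import Pool.Agent.H996.GWBMX
import Pool.Agent.H803.GWPOIS
import Pool.Agent.H404.GWM2
import Pool.Agent.H404.GWDET
import Pool.Agent.H113.GWRV2
import Pool.Agent.H249.GWPERT
import Pool.Agent.H353.GWBETA
import Pool.Agent.H155.GWSQUI
import Pool.Agent.H282.GWUPB
import Pool.Agent.H106.GW.UPP
import Pool.Agent.H196.GW.GWW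
import Pool.Agent.H331.GWM3
import Pool.Agent.H154.GWHEI
import Pool.Agent.H183.GWFCLT
import Pool.Agent.H935.GWCONV

set_option autoImplicit false
set_option linter.unusedSectionVars false
set_option linter.unusedVariables false

open MeasureTheory ProbabilityTheory Filter Topology Set
open scoped ENNReal NNReal

/-!
# The quenched invariance principle for the critically biased walk: assembly
-/

namespace Pool.Agent.H979.GW

open Pool.Agent.H979.QIP (P K V bm S P_zero)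

/-- the tree of the environment `ω` is infinite -/
def Survives {Q : Type} [Fintype Q] [DecidableEq Q] (ω : Env Q) : Prop :=
  ∀ n, (Lev (cht ω) n).Nonempty

theorem main {Q : Type} [Fintype Q] [DecidableEq Q] [Nonempty Q] (q : Q → Measure (Q → ℕ))
    [∀ a, IsProbabilityMeasure (q a)] {ρ : ℝ} (hρ : 1 < ρ)
    (hPF : ∃ e : Q → ℝ, (∀ a, 0 < e a) ∧ ∀ a, ∑ b, mA q a b * e b = ρ * e a)
    (hprim : ∃ n₀ : ℕ, ∀ a b, 0 < ((mA q) ^ n₀) a b) {p : ℝ} (hp : 2 ≤ p)
    (hmom : ∀ a, ∫⁻ x, ((∑ b, x b : ℕ) : ℝ≥0∞) ^ p ∂(q a) < ∞) :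
    ∃ σ : ℝ, 0 < σ ∧ ∀ a, ∀ᵐ ω ∂(law q a), Survives ω →
      (∃ (Ξ : Type) (_ : MeasurableSpace Ξ) (Pw : Measure Ξ) (X : ℕ → Ξ → Vx Q),
        IsProbabilityMeasure Pw ∧ IsWalk ρ ω Pw X) ∧
      ∀ (Ξ : Type) (_ : MeasurableSpace Ξ) (Pw : Measure Ξ) (X : ℕ → Ξ → Vx Q),
        IsProbabilityMeasure Pw → IsWalk ρ ω Pw X →
        ∀ (Ω' : Type) (_ : MeasurableSpace Ω') (P' : Measure Ω') (B : ℝ≥0 → Ω' → ℝ),
          IsProbabilityMeasure P' → ∀ (hB : IsBM P' B), ∀ F : DD → ℝ, ContLU F →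
          (∃ C : ℝ, ∀ x, |F x| ≤ C) →
          Tendsto (fun n : ℕ => ∫ ξ, F (stepD n (fun k => ((X k ξ).length : ℝ) / (σ * √n))) ∂Pw)
            atTop (𝓝 (∫ ω', F (absD (fun t => B t ω') (hB.cont ω')) ∂P')) := by
  haveI : Fact (1 < ρ) := ⟨hρ⟩
  have hρ0 : 0 < ρ := zero_lt_one.trans hρ
  have hA0 : ∀ a b, 0 ≤ mA q a b := fun a b => integral_nonneg fun x => Nat.cast_nonneg _
  obtain ⟨e, he, hAe⟩ := hPF
  obtain ⟨m, C, r, hpf⟩ := Pool.Agent.H215.gw_pf Q (mA q) ρ e hA0 hprim hρ0 he hAe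
  have hm2 := mom_of hp hmom
  have hm1 : ∀ a b, Integrable (fun x : Q → ℕ => (x b : ℝ)) (q a) := by
    intro a b
    have h1 : MemLp (fun x : Q → ℕ => (x b : ℝ)) 2 (q a) := by
      rw [memLp_two_iff_integrable_sq (measurable_of_countable _).aestronglyMeasurable]
      exact hm2 a b
    exact h1.integrable (by norm_num)
  have hy : Hyp q ρ e m C r := ⟨hm2, hρ, hpf⟩
  have hSH := Pool.Agent.H870.gw_sh q
  have hDEC := Pool.Agent.H385.gw_dec q
  have hM1 := Pool.Agent.H548.gw_m1 q hm1 hSH hDEC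
  have hM2 := Pool.Agent.H404.gw_m2 q hm2 hSH hDEC
  have hMZ := Pool.Agent.H286.gw_mz q hM1 hM2
  have hKEY := Pool.Agent.H591.gw_key q hy hM1 hM2
  have hW := Pool.Agent.H196.gw_w q hy hSH hM1 hM2 hKEY
  have hLLN := Pool.Agent.H289.gw_lln q hy hM1 hMZ hW
  have hLEV := Pool.Agent.H603.gw_lev (Q := Q)
  have hPOS := Pool.Agent.H161.gw_pos q hy hSH hW hLEV
  have hM3 := Pool.Agent.H331.gw_m3 q hm1 hSH hDEC ρ e hW.1
  have hPERT := Pool.Agent.H249.gw_pert (Q := Q)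
  have hBETA := Pool.Agent.H353.gw_beta q hy hM1 hM2 hW
  have hTAIL := Pool.Agent.H195.gw_tail q hy hSH hM1 hM3 hPERT hBETA hW hLEV
  have hLOW := Pool.Agent.H286.gw_low q hy hM1 hLEV hTAIL
  have hUPP := Pool.Agent.H106.gw_upp q hy hSH hM1 hW hLLN hLEV hLOW
  have hSQ := Pool.Agent.H155.gw_squi q hy hM1 hW hLLN hLEV
  have hPO := Pool.Agent.H803.GW.gw_pois q hy hSH hKEY hLLN hLEV
  have hCL := Pool.Agent.H551.gw_cl q hy hSH hM1 hW
  have hGREEN := Pool.Agent.H662.gw_green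
  have hOCC := Pool.Agent.H603.gw_occ hGREEN
  have hRV2 := Pool.Agent.H113.gw_rv2
  have hINT := Pool.Agent.H251.gw_int
  have hQV := Pool.Agent.H27.gw_qv hRV2 hOCC hINT
  have hREM := gw_rem hOCC
  have hUPB := Pool.Agent.H282.gw_upb hOCC
  have hLOV := Pool.Agent.H100.gw_lov hOCC
  have hLUMP := Pool.Agent.H284.gw_lump
  have hSGN := Pool.Agent.H921.gw_sgn
  have hHEI := Pool.Agent.H154.gw_hei hOCC hLOV hLUMP hSGN hINT
  have hFCLT := Pool.Agent.H183.gw_fclt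
  have hCONV := Pool.Agent.H935.gw_conv
  have hDET := Pool.Agent.H404.gw_det
  have hη := etaA_pos q hy hW
  have hm : 0 < ∑ b, m b := Finset.sum_pos (fun b _ => hpf.m_pos b) Finset.univ_nonempty
  refine ⟨√(etaA q ρ e m / ∑ b, m b) / etaA q ρ e m,
    div_pos (Real.sqrt_pos.2 (div_pos hη hm)) hη, fun a => ?_⟩
  filter_upwards [regA q hy hSH hW hPOS hSQ hPO hCL hLOW hUPP a] with ω hω hs
  have hR := hω hs
  have hroot := root_card hR
  refine ⟨⟨ℕ → Vx Q, inferInstance, P (stp ρ (cht ω)) [], fun k w => w k, inferInstance,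
    exists_walk ρ hroot⟩, ?_⟩
  intro Ξ _ Pw X hPw hX Ω' _ P' B hP' hB F hF hb
  have h1 := partB hQV hREM hUPB hLOV hINT hLUMP hSGN hHEI hDET hFCLT hCONV hR Ω' P' B hB F hF hb
  refine h1.congr fun n => ?_
  rw [← hX.law hroot, integral_map (measurable_pi_lambda _ hX.1).aemeasurable]
  refine Measurable.aestronglyMeasurable ?_
  have h2 : Measurable (fun (w : ℕ → Vx Q) (k : ℕ) => ((w k).length : ℝ) /
      (√(etaA q ρ e m / ∑ b, m b) / etaA q ρ e m * √n)) :=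
    measurable_pi_lambda _ fun k => ((measurable_from_top (f := fun v : Vx Q =>
      (v.length : ℝ))).comp (measurable_pi_apply k)).div_const _
  exact (meas_stepD hF n).comp h2

end Pool.Agent.H979.GW
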