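import Pool.Agent.H979.GW.Defs
import Pool.Agent.H979.QIP.Mart

set_option autoImplicit false
set_option linter.unusedSectionVars false
set_option linter.unusedVariables false

open MeasureTheory ProbabilityTheory Filter Topology Set
open scoped ENNReal NNReal

/-!
# The critically biased walk on a tree, and the signed walk: definitions and first facts

The law of a Markov chain with transition laws `q : X → Measure X` on a countable space `X`, started
at `x`, is the measure `QIP.P q x` on `ℕ → X` (file `QIP/Chain.lean`).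
-/

namespace Pool.Agent.H979.GW

open Pool.Agent.H979.QIP (P K V bm A)

instance instMeasurableSpaceList (Λ : Type) : MeasurableSpace (List Λ) := ⊤

section walk

variable {Λ : Type} [DecidableEq Λ]

/-- the transition laws of the `ρ`-biased walk on the tree `ch` -/
noncomputable def stp (ρ : ℝ) (ch : List Λ → Finset Λ) : List Λ → Measure (List Λ)
  | [] => if (ch []).card = 0 then Measure.dirac [] else
      ∑ c ∈ ch [], ENNReal.ofReal (1 / (ch []).card) • Measure.dirac [c]
  | a :: v => ENNReal.ofReal (ρ / (ρ + (ch (a :: v)).card)) • Measure.dirac v +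
      ∑ b ∈ ch (a :: v), ENNReal.ofReal (1 / (ρ + (ch (a :: v)).card)) • Measure.dirac (b :: a :: v)

/-- the signed walk: the second coordinate is a sign, which is chosen again at each step from the
root -/
noncomputable def sgc (ρ : ℝ) (ch : List Λ → Finset Λ) : List Λ × Bool → Measure (List Λ × Bool)
  | ([], _) => (2⁻¹ : ℝ≥0∞) • (stp ρ ch []).map (fun w => (w, true)) +
      (2⁻¹ : ℝ≥0∞) • (stp ρ ch []).map (fun w => (w, false))
  | (a :: v, s) => (stp ρ ch (a :: v)).map (fun w => (w, s))

/-- the signed `S` -/
def Sg (W : List Λ → ℝ) (x : List Λ × Bool) : ℝ := if x.2 then Sf W x.1 else - Sf W x.1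

open Classical in
/-- the increments of the signed `S` (on the tree) -/
noncomputable def xi (ch : List Λ → Finset Λ) (W : List Λ → ℝ) (x y : List Λ × Bool) : ℝ :=
  if InT ch x.1 then Sg W y - Sg W x else 0

theorem Pop_nil (ρ : ℝ) (ch : List Λ → Finset Λ) (f : List Λ → ℝ) :
    Pop ρ ch f [] = (∑ c ∈ ch [], f [c]) / (ch []).card := rfl

theorem Pop_cons (ρ : ℝ) (ch : List Λ → Finset Λ) (f : List Λ → ℝ) (a : Λ) (v : List Λ) :
    Pop ρ ch f (a :: v) = (ρ * f v + ∑ b ∈ ch (a :: v), f (b :: a :: v)) /
      (ρ + (ch (a :: v)).card) := rfl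

theorem stp_univ {ρ : ℝ} (hρ : 0 < ρ) (ch : List Λ → Finset Λ) (v : List Λ) :
    stp ρ ch v univ = 1 := by
  cases v with
  | nil =>
    unfold stp
    split_ifs with h
    · simp
    · simp only [Measure.coe_finsetSum, Measure.smul_apply, Finset.sum_apply, measure_univ,
        smul_eq_mul, mul_one, Finset.sum_const, nsmul_eq_mul]
      rw [one_div, ENNReal.ofReal_inv_of_pos (by positivity), ENNReal.ofReal_natCast]
      exact ENNReal.mul_inv_cancel (by simpa using h) (ENNReal.natCast_ne_top _)
  | cons a v =>
    unfold stp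
    have h0 : 0 < ρ + ((ch (a :: v)).card : ℝ) := by positivity
    simp only [Measure.coe_finsetSum, Measure.smul_apply, Finset.sum_apply, measure_univ,
      smul_eq_mul, mul_one, Finset.sum_const, nsmul_eq_mul, Measure.coe_add, Pi.add_apply]
    rw [← ENNReal.ofReal_natCast, ← ENNReal.ofReal_mul (by positivity),
      ← ENNReal.ofReal_add (by positivity) (by positivity), ← ENNReal.ofReal_one]
    congr 1
    field_simp

instance (ρ : ℝ) [h : Fact (1 < ρ)] (ch : List Λ → Finset Λ) (v : List Λ) :
    IsProbabilityMeasure (stp ρ ch v) := ⟨stp_univ (zero_lt_one.trans h.out) ch v⟩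

theorem measurable_pairl (s : Bool) : Measurable (fun w : List Λ => (w, s)) :=
  measurable_id.prodMk measurable_const

instance (ρ : ℝ) [h : Fact (1 < ρ)] (ch : List Λ → Finset Λ) (x : List Λ × Bool) :
    IsProbabilityMeasure (sgc ρ ch x) := by
  obtain ⟨v, s⟩ := x
  cases v with
  | nil =>
    refine ⟨?_⟩
    unfold sgc
    simp only [Measure.coe_add, Measure.smul_apply, Pi.add_apply, smul_eq_mul]
    rw [Measure.map_apply (measurable_pairl _) MeasurableSet.univ,
      Measure.map_apply (measurable_pairl _) MeasurableSet.univ, preimage_univ, preimage_univ,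
      stp_univ (zero_lt_one.trans h.out), mul_one, ENNReal.inv_two_add_inv_two]
  | cons a v =>
    exact Measure.isProbabilityMeasure_map (measurable_pairl s).aemeasurable

theorem lintegral_stp_nil (ρ : ℝ) {ch : List Λ → Finset Λ} (h : (ch []).card ≠ 0)
    (f : List Λ → ℝ≥0∞) :
    ∫⁻ w, f w ∂(stp ρ ch []) = ∑ c ∈ ch [], ENNReal.ofReal (1 / (ch []).card) * f [c] := by
  unfold stp
  rw [if_neg h, lintegral_finsetSum_measure]
  refine Finset.sum_congr rfl fun c _ => ?_
  rw [lintegral_smul_measure, lintegral_dirac' _ measurable_from_top, smul_eq_mul]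

theorem lintegral_stp_cons (ρ : ℝ) (ch : List Λ → Finset Λ) (a : Λ) (v : List Λ)
    (f : List Λ → ℝ≥0∞) :
    ∫⁻ w, f w ∂(stp ρ ch (a :: v)) = ENNReal.ofReal (ρ / (ρ + (ch (a :: v)).card)) * f v +
      ∑ b ∈ ch (a :: v), ENNReal.ofReal (1 / (ρ + (ch (a :: v)).card)) * f (b :: a :: v) := by
  unfold stp
  rw [lintegral_add_measure, lintegral_finsetSum_measure, lintegral_smul_measure,
    lintegral_dirac' _ measurable_from_top, smul_eq_mul]
  congr 1
  refine Finset.sum_congr rfl fun c _ => ?_
  rw [lintegral_smul_measure, lintegral_dirac' _ measurable_from_top, smul_eq_mul]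

theorem integrable_stp (ρ : ℝ) (ch : List Λ → Finset Λ) (v : List Λ) (f : List Λ → ℝ) :
    Integrable f (stp ρ ch v) := by
  have hd : ∀ x : List Λ, Integrable f (Measure.dirac x) := fun x =>
    integrable_dirac' (measurable_from_top.stronglyMeasurable) (by simp)
  cases v with
  | nil =>
    unfold stp
    split_ifs with h
    · exact hd _
    · rw [integrable_finsetSum_measure]
      exact fun c _ => (hd _).smul_measure ENNReal.ofReal_ne_top
  | cons a v =>
    unfold stp
    refine Integrable.add_measure ((hd _).smul_measure ENNReal.ofReal_ne_top) ?_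
    rw [integrable_finsetSum_measure]
    exact fun c _ => (hd _).smul_measure ENNReal.ofReal_ne_top

/-- the transition operator -/
theorem integral_stp {ρ : ℝ} (hρ : 0 < ρ) {ch : List Λ → Finset Λ} (h : (ch []).card ≠ 0)
    (f : List Λ → ℝ) (v : List Λ) : ∫ w, f w ∂(stp ρ ch v) = Pop ρ ch f v := by
  have hd : ∀ x : List Λ, Integrable f (Measure.dirac x) := fun x =>
    integrable_dirac' (measurable_from_top.stronglyMeasurable) (by simp)
  have hdi : ∀ x : List Λ, ∫ w, f w ∂(Measure.dirac x) = f x := fun x =>
    integral_dirac' _ _ measurable_from_top.stronglyMeasurable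
  cases v with
  | nil =>
    rw [Pop_nil]
    unfold stp
    rw [if_neg h, integral_finsetSum_measure fun c _ => (hd _).smul_measure ENNReal.ofReal_ne_top,
      Finset.sum_div]
    refine Finset.sum_congr rfl fun c _ => ?_
    rw [integral_smul_measure, hdi, ENNReal.toReal_ofReal (by positivity), smul_eq_mul]
    ring
  | cons a v =>
    rw [Pop_cons]
    unfold stp
    rw [integral_add_measure ((hd _).smul_measure ENNReal.ofReal_ne_top)
      ((integrable_finsetSum_measure).2 fun c _ => (hd _).smul_measure ENNReal.ofReal_ne_top),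
      integral_finsetSum_measure fun c _ => (hd _).smul_measure ENNReal.ofReal_ne_top,
      add_div, Finset.sum_div]
    have h0 : 0 < ρ + ((ch (a :: v)).card : ℝ) := by positivity
    congr 1
    · rw [integral_smul_measure, hdi, ENNReal.toReal_ofReal (by positivity), smul_eq_mul]
      ring
    · refine Finset.sum_congr rfl fun c _ => ?_
      rw [integral_smul_measure, hdi, ENNReal.toReal_ofReal (by positivity), smul_eq_mul]
      ring

theorem Pop_nonneg {ρ : ℝ} (hρ : 0 < ρ) (ch : List Λ → Finset Λ) {f : List Λ → ℝ}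
    (hf : ∀ v, 0 ≤ f v) (v : List Λ) : 0 ≤ Pop ρ ch f v := by
  cases v with
  | nil => unfold Pop; exact div_nonneg (Finset.sum_nonneg fun _ _ => hf _) (by positivity)
  | cons a v =>
    unfold Pop
    exact div_nonneg (add_nonneg (mul_nonneg hρ.le (hf _)) (Finset.sum_nonneg fun _ _ => hf _))
      (by positivity)

theorem Pop_iter_nonneg {ρ : ℝ} (hρ : 0 < ρ) (ch : List Λ → Finset Λ) {f : List Λ → ℝ}
    (hf : ∀ v, 0 ≤ f v) (t : ℕ) (v : List Λ) : 0 ≤ (Pop ρ ch)^[t] f v := by
  induction t generalizing v with
  | zero => exact hf v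
  | succ t ih => rw [Function.iterate_succ_apply']; exact Pop_nonneg hρ ch ih v

variable [Countable Λ]

/-- the mean of a function of the position of the walk at time `t` -/
theorem coord {ρ : ℝ} [h1 : Fact (1 < ρ)] {ch : List Λ → Finset Λ} (h : (ch []).card ≠ 0)
    {f : List Λ → ℝ} (hf : ∀ v, 0 ≤ f v) (t : ℕ) (v : List Λ) :
    ∫⁻ w, ENNReal.ofReal (f (w t)) ∂(P (stp ρ ch) v) =
      ENNReal.ofReal ((Pop ρ ch)^[t] f v) := by
  have hρ : 0 < ρ := zero_lt_one.trans h1.out
  rw [Pool.Agent.H979.QIP.lintegral_coord (stp ρ ch) t v (fun v => ENNReal.ofReal (f v))]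
  induction t generalizing v with
  | zero => rfl
  | succ t ih =>
    rw [Function.iterate_succ_apply', Function.iterate_succ_apply']
    rw [← integral_stp hρ h, ofReal_integral_eq_lintegral_ofReal (integrable_stp ρ ch v _)
      (Eventually.of_forall fun w => Pop_iter_nonneg hρ ch hf t w)]
    unfold K
    exact lintegral_congr fun w => ih w

end walk

end Pool.Agent.H979.GW
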